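import Mathlib

set_option autoImplicit false

/-!
# Weighted graphs: Laplacian of a vertex subset, chains of complete blocks
-/

namespace Q122.QB

variable {V : Type} [DecidableEq V]

/-- Laplacian of the weighted graph `a` induced on the vertex set `W` -/
def Lap (a : V → V → ℤ) (W : Finset V) (f : V → ℤ) (x : V) : ℤ := ∑ z ∈ W, a x z * (f x - f z)

/-- symmetric nonnegative weights without loops -/
structure WG (a : V → V → ℤ) : Prop where
  symm : ∀ x z, a x z = a z x
  nonneg : ∀ x z, 0 ≤ a x z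
  diag : ∀ x, a x x = 0

/-- `W` is connected -/
def Conn (a : V → V → ℤ) (W : Finset V) : Prop :=
  ∀ S : Finset V, S ⊆ W → S.Nonempty → S ≠ W → ∃ x ∈ S, ∃ z ∈ W, z ∉ S ∧ 0 < a x z

/-- rank condition at the root `y` with surplus `c` -/
def RR (a : V → V → ℤ) (W : Finset V) (y : V) (c : ℤ) : Prop :=
  ∀ w ∈ W, w ≠ y → ∃ f : V → ℤ, ∀ x ∈ W,
    0 ≤ (if x = y then 1 + c else 1) - (if x = w then 2 else 0) - Lap a W f x

/-- every effective divisor on `W` with at least `c` chips at `y` which covers `W` has degree at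
least `|W| - 1 + c` -/
def GG (a : V → V → ℤ) (W : Finset V) (y : V) (c : ℤ) : Prop :=
  ∀ D : V → ℤ, (∀ x ∈ W, 0 ≤ D x) → c ≤ D y →
    (∀ x ∈ W, ∃ f : V → ℤ, (∀ z ∈ W, 0 ≤ D z - Lap a W f z) ∧ 1 ≤ D x - Lap a W f x) →
    (W.card : ℤ) - 1 + c ≤ ∑ x ∈ W, D x

/-- a chain of complete blocks -/
inductive Chain (a : V → V → ℤ) : Finset V → V → ℤ → Prop
  | base (y : V) (c : ℤ) : Chain a {y} y c
  | step (W : Finset V) (y : V) (c : ℤ) (T : Finset V) (b : V) (W' : Finset V) (hyT : y ∉ T)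
      (hbT : b ∈ T) (hbW : b ∈ W') (hdis : Disjoint (insert y (T.erase b)) W')
      (hW : W = insert y (T.erase b) ∪ W') (h1 : ∀ x ∈ T, a y x = c + 1)
      (h2 : ∀ x ∈ T, ∀ z ∈ T, x ≠ z → a x z = 1)
      (h3 : ∀ x ∈ insert y (T.erase b), ∀ z ∈ W', z ≠ b → a x z = 0)
      (h4 : Chain a W' b (c + T.card)) : Chain a W y c

/-! ### Indicator functions -/

/-- indicator of a set -/
def ic (U : Finset V) (x : V) : ℤ := if x ∈ U then 1 else 0

lemma Lap_ic_in (a : V → V → ℤ) (W U : Finset V) {x : V} (hx : x ∈ U) :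
    Lap a W (ic U) x = ∑ z ∈ W \ U, a x z := by
  unfold Lap ic
  rw [← Finset.sum_filter_add_sum_filter_not W (fun z => z ∈ U)]
  have h1 : ∑ z ∈ W.filter (fun z => z ∈ U), a x z * ((if x ∈ U then (1 : ℤ) else 0) -
      if z ∈ U then 1 else 0) = 0 := by
    refine Finset.sum_eq_zero fun z hz => ?_
    rw [Finset.mem_filter] at hz
    simp [hx, hz.2]
  rw [h1, zero_add]
  have h2 : W.filter (fun z => ¬ z ∈ U) = W \ U := by
    ext z
    simp
  rw [h2]
  refine Finset.sum_congr rfl fun z hz => ?_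
  rw [Finset.mem_sdiff] at hz
  simp [hx, hz.2]

lemma Lap_ic_out (a : V → V → ℤ) (W U : Finset V) {x : V} (hx : x ∉ U) :
    Lap a W (ic U) x = - ∑ z ∈ W ∩ U, a x z := by
  unfold Lap ic
  rw [← Finset.sum_filter_add_sum_filter_not W (fun z => z ∈ U)]
  have h1 : ∑ z ∈ W.filter (fun z => ¬ z ∈ U), a x z * ((if x ∈ U then (1 : ℤ) else 0) -
      if z ∈ U then 1 else 0) = 0 := by
    refine Finset.sum_eq_zero fun z hz => ?_
    rw [Finset.mem_filter] at hz
    simp [hx, hz.2]
  rw [h1, add_zero]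
  have h2 : W.filter (fun z => z ∈ U) = W ∩ U := by
    ext z
    simp
  rw [h2, ← Finset.sum_neg_distrib]
  refine Finset.sum_congr rfl fun z hz => ?_
  rw [Finset.mem_inter] at hz
  simp [hx, hz.2]

lemma Lap_add (a : V → V → ℤ) (W : Finset V) (f g : V → ℤ) (x : V) :
    Lap a W (fun z => f z + g z) x = Lap a W f x + Lap a W g x := by
  unfold Lap
  rw [← Finset.sum_add_distrib]
  refine Finset.sum_congr rfl fun z _ => ?_
  ring

lemma Lap_sub (a : V → V → ℤ) (W : Finset V) (f g : V → ℤ) (x : V) :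
    Lap a W (fun z => f z - g z) x = Lap a W f x - Lap a W g x := by
  unfold Lap
  rw [← Finset.sum_sub_distrib]
  refine Finset.sum_congr rfl fun z _ => ?_
  ring

lemma Lap_neg (a : V → V → ℤ) (W : Finset V) (f : V → ℤ) (x : V) :
    Lap a W (fun z => - f z) x = - Lap a W f x := by
  unfold Lap
  rw [← Finset.sum_neg_distrib]
  refine Finset.sum_congr rfl fun z _ => ?_
  ring

lemma Lap_zero (a : V → V → ℤ) (W : Finset V) (x : V) : Lap a W (fun _ => 0) x = 0 := by
  simp [Lap]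

/-- the divisor with `p` chips at `y`, no chips on `S` and one chip elsewhere -/
def dv (y : V) (p : ℤ) (S : Finset V) (x : V) : ℤ := if x = y then p else if x ∈ S then 0 else 1

lemma sum_dv (W : Finset V) {y : V} (hy : y ∈ W) (p : ℤ) (S : Finset V) (hS : S ⊆ W)
    (hyS : y ∉ S) : ∑ x ∈ W, dv y p S x = p + (W.card : ℤ) - 1 - S.card := by
  rw [← Finset.add_sum_erase W _ hy]
  have h1 : ∀ x ∈ W.erase y, dv y p S x = 1 - ic S x := by
    intro x hx
    rw [Finset.mem_erase] at hx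
    unfold dv ic
    rw [if_neg hx.1]
    split_ifs <;> norm_num
  rw [Finset.sum_congr rfl h1, Finset.sum_sub_distrib]
  have h2 : ∑ x ∈ W.erase y, ic S x = S.card := by
    unfold ic
    rw [Finset.sum_ite_mem]
    have : W.erase y ∩ S = S := by
      rw [Finset.inter_eq_right]
      intro z hz
      rw [Finset.mem_erase]
      exact ⟨fun h => hyS (h ▸ hz), hS hz⟩
    rw [this]
    simp
  rw [h2, Finset.sum_const, Finset.card_erase_of_mem hy]
  have h3 : 1 ≤ W.card := Finset.card_pos.mpr ⟨y, hy⟩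
  have h4 : dv y p S y = p := by simp [dv]
  rw [h4]
  simp only [smul_eq_mul, mul_one, nsmul_eq_mul]
  push_cast [Nat.cast_sub h3]
  ring

lemma dv_self (y : V) (p : ℤ) (S : Finset V) : dv y p S y = p := by simp [dv]

lemma dv_mem {y : V} (p : ℤ) {S : Finset V} {x : V} (h : x ≠ y) (hx : x ∈ S) :
    dv y p S x = 0 := by simp [dv, h, hx]

lemma dv_not {y : V} (p : ℤ) {S : Finset V} {x : V} (h : x ≠ y) (hx : x ∉ S) :
    dv y p S x = 1 := by simp [dv, h, hx]

lemma dv_nonneg {y : V} {p : ℤ} (hp : 0 ≤ p) (S : Finset V) (x : V) : 0 ≤ dv y p S x := by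
  unfold dv
  split_ifs <;> first | exact hp | norm_num

end Q122.QB
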