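import Pool.Agent.Q122.QB.Defs

set_option autoImplicit false

/-!
# The first legal firing set
-/

namespace Q122.QB

variable {V : Type} [DecidableEq V] {a : V → V → ℤ} {W : Finset V} {y : V} {c : ℤ}

/-- all edges from `U` to the rest of `W` go to `b` -/
structure Sep (a : V → V → ℤ) (W : Finset V) (y : V) (U : Finset V) (b : V) : Prop where
  sub : U ⊆ W
  root : y ∈ U
  bW : b ∈ W
  bU : b ∉ U
  exit : ∀ x ∈ U, ∀ z ∈ W, z ∉ U → z ≠ b → a x z = 0

lemma Sep.inter {U U' : Finset V} {b : V} (h : Sep a W y U b) (h' : Sep a W y U' b) :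
    Sep a W y (U ∩ U') b where
  sub := Finset.inter_subset_left.trans h.sub
  root := Finset.mem_inter.mpr ⟨h.root, h'.root⟩
  bW := h.bW
  bU := fun hb => h.bU (Finset.mem_inter.mp hb).1
  exit := by
    intro x hx z hz hzU hzb
    rw [Finset.mem_inter] at hx hzU
    by_cases h1 : z ∈ U
    · exact h'.exit x hx.2 z hz (fun h2 => hzU ⟨h1, h2⟩) hzb
    · exact h.exit x hx.1 z hz h1 hzb

/-- The first legal set that is fired on the way to a chip at `w`. -/
theorem exit_data (ha : WG a) (hc : 1 ≤ c) (hconn : Conn a W) (hyW : y ∈ W)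
    (hR : RR a W y c) (hG : GG a W y c) {w : V} (hw : w ∈ W) (hwy : w ≠ y) :
    ∃ (U : Finset V) (b : V), Sep a W y U b ∧ w ∉ U ∧ a y b = c + 1 ∧
      (∀ x ∈ U, x ≠ y → a x b ≤ 1) ∧ ∃ (f : V → ℤ) (K : ℤ), (∀ x ∈ U, f x = K) ∧ f b = K - 1 ∧
      ∀ x ∈ W, 0 ≤ (if x = y then 1 + c else 1) - (if x = w then 2 else 0) - Lap a W f x := by
  classical
  obtain ⟨f, hf⟩ := hR w hw hwy
  obtain ⟨m, hmW, hmax⟩ := Finset.exists_max_image W f ⟨y, hyW⟩
  set K := f m with hK
  set U : Finset V := W.filter (fun x => f x = K) with hU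
  have hUW : U ⊆ W := Finset.filter_subset _ _
  have hmU : m ∈ U := Finset.mem_filter.mpr ⟨hmW, rfl⟩
  have hUmem : ∀ x, x ∈ U ↔ x ∈ W ∧ f x = K := fun x => Finset.mem_filter
  -- outflow bound
  have hterm : ∀ x ∈ U, ∀ z ∈ W, z ∉ U → a x z ≤ a x z * (f x - f z) := by
    intro x hx z hz hzU
    have h1 := (hUmem x).mp hx
    have h2 : f z ≤ K := hmax z hz
    have h3 : f z ≠ K := fun h => hzU ((hUmem z).mpr ⟨hz, h⟩)
    have h4 : 1 ≤ f x - f z := by
      rw [h1.2]
      omega
    have h5 := ha.nonneg x z
    nlinarith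
  have hout : ∀ x ∈ U, ∑ z ∈ W \ U, a x z ≤ Lap a W f x := by
    intro x hx
    unfold Lap
    rw [← Finset.sum_sdiff hUW]
    have h1 : ∑ z ∈ U, a x z * (f x - f z) = 0 := by
      refine Finset.sum_eq_zero fun z hz => ?_
      rw [((hUmem x).mp hx).2, ((hUmem z).mp hz).2]
      ring
    rw [h1, add_zero]
    refine Finset.sum_le_sum fun z hz => ?_
    rw [Finset.mem_sdiff] at hz
    exact hterm x hx z hz.1 hz.2
  have hout0 : ∀ x, 0 ≤ ∑ z ∈ W \ U, a x z := fun x => Finset.sum_nonneg fun z _ => ha.nonneg x z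
  have hwU : w ∉ U := by
    intro h
    have h1 := hf w hw
    have h2 := hout w h
    have h3 := hout0 w
    rw [if_neg hwy, if_pos rfl] at h1
    linarith
  have hbd : ∀ x ∈ U, ∑ z ∈ W \ U, a x z ≤ if x = y then 1 + c else 1 := by
    intro x hx
    have h1 := hf x (hUW hx)
    have h2 := hout x hx
    have h3 : x ≠ w := fun h => hwU (h ▸ hx)
    rw [if_neg h3] at h1
    linarith
  have hUne : U ≠ W := fun h => hwU (h ▸ hw)
  -- outer boundary
  set B : Finset V := (W \ U).filter (fun z => ∃ x ∈ U, 0 < a x z) with hB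
  have hBmem : ∀ z, z ∈ B ↔ (z ∈ W ∧ z ∉ U) ∧ ∃ x ∈ U, 0 < a x z := by
    intro z
    rw [hB, Finset.mem_filter, Finset.mem_sdiff]
  have hBW : B ⊆ W := fun z hz => ((hBmem z).mp hz).1.1
  obtain ⟨x0, hx0, z0, hz0W, hz0U, h0⟩ := hconn U hUW ⟨m, hmU⟩ hUne
  have hz0B : z0 ∈ B := (hBmem z0).mpr ⟨⟨hz0W, hz0U⟩, x0, hx0, h0⟩
  -- firing `U` reaches the outer boundary
  have hreach : ∀ (D : V → ℤ), (∀ x ∈ W, 0 ≤ D x) → (∀ x ∈ U, ∑ z ∈ W \ U, a x z ≤ D x) →
      ∀ z ∈ B, (∀ x ∈ W, 0 ≤ D x - Lap a W (ic U) x) ∧ 1 ≤ D z - Lap a W (ic U) z := by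
    intro D hD0 hD z hz
    obtain ⟨⟨hzW, hzU⟩, x, hx, hxz⟩ := (hBmem z).mp hz
    refine ⟨fun x' hx' => ?_, ?_⟩
    · by_cases h1 : x' ∈ U
      · rw [Lap_ic_in a W U h1]
        have := hD x' h1
        linarith
      · rw [Lap_ic_out a W U h1]
        have h2 : 0 ≤ ∑ z ∈ W ∩ U, a x' z := Finset.sum_nonneg fun z _ => ha.nonneg x' z
        have := hD0 x' hx'
        linarith
    · rw [Lap_ic_out a W U hzU]
      have h2 : a z x ≤ ∑ t ∈ W ∩ U, a z t :=
        Finset.single_le_sum (f := fun t => a z t) (fun t _ => ha.nonneg z t)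
          (Finset.mem_inter.mpr ⟨hUW hx, hx⟩)
      have h3 := ha.symm z x
      have := hD0 z hzW
      omega
  have hcover0 : ∀ (D : V → ℤ), (∀ x ∈ W, 0 ≤ D x) → ∀ x, 1 ≤ D x →
      ∃ f : V → ℤ, (∀ z ∈ W, 0 ≤ D z - Lap a W f z) ∧ 1 ≤ D x - Lap a W f x := by
    intro D hD x hx
    refine ⟨fun _ => 0, fun z hz => ?_, ?_⟩
    · rw [Lap_zero]
      have := hD z hz
      linarith
    · rw [Lap_zero]
      linarith
  by_cases hyU : y ∈ U
  · -- the main case
    set o := ∑ z ∈ W \ U, a y z with ho
    have hyB : y ∉ B := fun h => ((hBmem y).mp h).1.2 hyU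
    have hp0 : 0 ≤ max c o := le_trans (by linarith) (le_max_left c o)
    have h1 := hG (dv y (max c o) B) (fun x _ => dv_nonneg hp0 B x)
      (by rw [dv_self]; exact le_max_left c o) (by
        intro x hx
        by_cases hxB : x ∈ B
        · refine ⟨ic U, hreach _ (fun x _ => dv_nonneg hp0 B x) ?_ x hxB⟩
          intro u hu
          by_cases huy : u = y
          · subst huy
            rw [dv_self]
            exact le_max_right c o
          · have huB : u ∉ B := fun h => ((hBmem u).mp h).1.2 hu
            rw [dv_not _ huy huB]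
            have := hbd u hu
            rwa [if_neg huy] at this
        · refine hcover0 _ (fun x _ => dv_nonneg hp0 B x) x ?_
          by_cases hxy : x = y
          · subst hxy
            rw [dv_self]
            exact le_trans hc (le_max_left c o)
          · rw [dv_not _ hxy hxB])
    rw [sum_dv W hyW _ B hBW hyB] at h1
    have hBpos : 1 ≤ (B.card : ℤ) := by
      have : 0 < B.card := Finset.card_pos.mpr ⟨z0, hz0B⟩
      omega
    have ho1 : o ≤ 1 + c := by
      have := hbd y hyU
      rwa [if_pos rfl] at this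
    have hmaxo : max c o = o := by
      rcases le_total c o with h | h
      · exact max_eq_right h
      · rw [max_eq_left h] at h1
        linarith
    rw [hmaxo] at h1
    have hoc : o = c + 1 := by linarith
    have hB1 : B.card = 1 := by
      have : (B.card : ℤ) ≤ 1 := by linarith
      omega
    obtain ⟨b, hb⟩ := Finset.card_eq_one.mp hB1
    have hbB : b ∈ B := by rw [hb]; exact Finset.mem_singleton_self b
    obtain ⟨⟨hbW, hbU⟩, -⟩ := (hBmem b).mp hbB
    have hexit : ∀ x ∈ U, ∀ z ∈ W, z ∉ U → z ≠ b → a x z = 0 := by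
      intro x hx z hz hzU hzb
      by_contra hne
      have hpos : 0 < a x z := lt_of_le_of_ne (ha.nonneg x z) (Ne.symm hne)
      have : z ∈ B := (hBmem z).mpr ⟨⟨hz, hzU⟩, x, hx, hpos⟩
      rw [hb, Finset.mem_singleton] at this
      exact hzb this
    have hsum : ∀ x ∈ U, ∑ z ∈ W \ U, a x z = a x b := by
      intro x hx
      refine Finset.sum_eq_single_of_mem b (Finset.mem_sdiff.mpr ⟨hbW, hbU⟩) ?_
      intro z hz hzb
      rw [Finset.mem_sdiff] at hz
      exact hexit x hx z hz.1 hz.2 hzb
    have hyb : a y b = c + 1 := by rw [← hsum y hyU, ← ho, hoc]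
    refine ⟨U, b, ⟨hUW, hyU, hbW, hbU, hexit⟩, hwU, hyb, ?_, f, K, fun x hx =>
      ((hUmem x).mp hx).2, ?_, hf⟩
    · intro x hx hxy
      rw [← hsum x hx]
      have := hbd x hx
      rwa [if_neg hxy] at this
    · have h2 : f b ≤ K := hmax b hbW
      have h3 : f b ≠ K := fun h => hbU ((hUmem b).mpr ⟨hbW, h⟩)
      have h4 := hf y hyW
      rw [if_pos rfl, if_neg (Ne.symm hwy)] at h4
      have h5 : a y b * (f y - f b) ≤ Lap a W f y := by
        unfold Lap
        refine Finset.single_le_sum (f := fun z => a y z * (f y - f z)) (fun z hz => ?_) hbW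
        have h6 : f z ≤ K := hmax z hz
        have h7 : f y = K := ((hUmem y).mp hyU).2
        have h8 := ha.nonneg y z
        exact mul_nonneg h8 (by rw [h7]; linarith)
      rw [hyb, ((hUmem y).mp hyU).2] at h5
      have h6 : K - f b ≤ 1 := by
        by_contra hcon
        push Not at hcon
        have : (c + 1) * 2 ≤ (c + 1) * (K - f b) := by
          apply mul_le_mul_of_nonneg_left _ (by linarith)
          omega
        linarith
      omega
  · -- impossible
    exfalso
    -- first divisor
    have hb1 : ∀ x ∈ U, ∑ z ∈ W \ U, a x z ≤ 1 := by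
      intro x hx
      have hxy : x ≠ y := fun h => hyU (h ▸ hx)
      have := hbd x hx
      rwa [if_neg hxy] at this
    have hBy : B ⊆ {y} := by
      have hp0 : 0 ≤ c := by linarith
      have h1 := hG (dv y c (B.erase y)) (fun x _ => dv_nonneg hp0 _ x)
        (by rw [dv_self]) (by
          intro x hx
          by_cases hxB : x ∈ B.erase y
          · refine ⟨ic U, hreach _ (fun x _ => dv_nonneg hp0 _ x) ?_ x (Finset.mem_of_mem_erase hxB)⟩
            intro u hu
            have huy : u ≠ y := fun h => hyU (h ▸ hu)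
            have huB : u ∉ B.erase y := fun h =>
              ((hBmem u).mp (Finset.mem_of_mem_erase h)).1.2 hu
            rw [dv_not _ huy huB]
            exact hb1 u hu
          · refine hcover0 _ (fun x _ => dv_nonneg hp0 _ x) x ?_
            by_cases hxy : x = y
            · subst hxy
              rw [dv_self]
              exact hc
            · rw [dv_not _ hxy hxB])
      rw [sum_dv W hyW _ _ ((Finset.erase_subset _ _).trans hBW) (by simp)] at h1
      have h2 : (B.erase y).card = 0 := by
        have : ((B.erase y).card : ℤ) ≤ 0 := by linarith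
        omega
      rw [Finset.card_eq_zero] at h2
      intro z hz
      rw [Finset.mem_singleton]
      by_contra hzy
      have : z ∈ B.erase y := Finset.mem_erase.mpr ⟨hzy, hz⟩
      rw [h2] at this
      simp at this
    have hexit : ∀ x ∈ U, ∀ z ∈ W, z ∉ U → z ≠ y → a x z = 0 := by
      intro x hx z hz hzU hzb
      by_contra hne
      have hpos : 0 < a x z := lt_of_le_of_ne (ha.nonneg x z) (Ne.symm hne)
      have : z ∈ B := (hBmem z).mpr ⟨⟨hz, hzU⟩, x, hx, hpos⟩
      exact hzb (Finset.mem_singleton.mp (hBy this))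
    have hsum : ∀ x ∈ U, ∑ z ∈ W \ U, a x z = a x y := by
      intro x hx
      refine Finset.sum_eq_single_of_mem y (Finset.mem_sdiff.mpr ⟨hyW, hyU⟩) ?_
      intro z hz hzb
      rw [Finset.mem_sdiff] at hz
      exact hexit x hx z hz.1 hz.2 hzb
    set I : Finset V := U.filter (fun x => 0 < a x y) with hI
    have hImem : ∀ x, x ∈ I ↔ x ∈ U ∧ 0 < a x y := fun x => Finset.mem_filter
    have hyI : y ∉ I := fun h => hyU ((hImem y).mp h).1
    have hIW : I ⊆ W := (Finset.filter_subset _ _).trans hUW
    have hIpos : 1 ≤ (I.card : ℤ) := by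
      have : z0 = y := Finset.mem_singleton.mp (hBy hz0B)
      have : 0 < I.card := Finset.card_pos.mpr ⟨x0, (hImem x0).mpr ⟨hx0, this ▸ h0⟩⟩
      omega
    have hy_in : ∑ z ∈ W ∩ U, a y z = I.card := by
      have h2 : W ∩ U = U := Finset.inter_eq_right.mpr hUW
      have h6 : (I.card : ℤ) = ∑ z ∈ U, if 0 < a z y then (1 : ℤ) else 0 := by
        rw [hI, Finset.card_filter]
        push_cast
        rfl
      rw [h2, h6]
      refine Finset.sum_congr rfl fun z hz => ?_
      have h3 := hb1 z hz
      rw [hsum z hz] at h3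
      have h4 := ha.nonneg z y
      rw [ha.symm y z]
      by_cases h5 : 0 < a z y
      · rw [if_pos h5]
        omega
      · rw [if_neg h5]
        omega
    have hp0 : 0 ≤ max c (I.card : ℤ) := le_trans (by linarith) (le_max_left c _)
    have h1 := hG (dv y (max c I.card) I) (fun x _ => dv_nonneg hp0 _ x)
      (by rw [dv_self]; exact le_max_left c _) (by
        intro x hx
        by_cases hxI : x ∈ I
        · refine ⟨fun z => - ic U z, fun z hz => ?_, ?_⟩
          · rw [Lap_neg]
            by_cases hzU : z ∈ U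
            · rw [Lap_ic_in a W U hzU]
              have h2 := hout0 z
              have h3 := dv_nonneg (y := y) hp0 I z
              linarith
            · rw [Lap_ic_out a W U hzU]
              by_cases hzy : z = y
              · rw [hzy, dv_self, hy_in]
                have := le_max_right c (I.card : ℤ)
                linarith
              · have h2 : ∑ t ∈ W ∩ U, a z t = 0 := by
                  refine Finset.sum_eq_zero fun t ht => ?_
                  rw [Finset.mem_inter] at ht
                  rw [ha.symm]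
                  exact hexit t ht.2 z hz hzU hzy
                rw [h2]
                have h3 := dv_nonneg (y := y) hp0 I z
                linarith
          · rw [Lap_neg, Lap_ic_in a W U ((hImem x).mp hxI).1, hsum x ((hImem x).mp hxI).1]
            have h2 := ((hImem x).mp hxI).2
            have h3 := dv_nonneg (y := y) hp0 I x
            linarith
        · refine hcover0 _ (fun x _ => dv_nonneg hp0 _ x) x ?_
          by_cases hxy : x = y
          · subst hxy
            rw [dv_self]
            exact le_trans hc (le_max_left c _)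
          · rw [dv_not _ hxy hxI])
    rw [sum_dv W hyW _ I hIW hyI] at h1
    rcases le_total c (I.card : ℤ) with h | h
    · rw [max_eq_right h] at h1
      linarith
    · rw [max_eq_left h] at h1
      linarith

end Q122.QB
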