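import Pool.Agent.Q122.QB.Grph

set_option autoImplicit false

/-!
# The lower bound on the subdivision
-/

namespace Q122.QB

open Q122.Gon Q122.Gon.MGraph

set_option linter.unusedSectionVars false

/-- the cut of a complete block -/
lemma cut_block {V : Type} [DecidableEq V] {a : V → V → ℤ} (ha : WG a) {y : V} {T : Finset V}
    {c : ℤ} (hc : 0 ≤ c) (hyT : y ∉ T) (h1 : ∀ x ∈ T, a y x = c + 1)
    (h2 : ∀ x ∈ T, ∀ z ∈ T, x ≠ z → a x z = 1) (A B : Finset V) (hdis : Disjoint A B)
    (hAB : A ∪ B = insert y T) (hA : A.Nonempty) (hB : B.Nonempty) :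
    c + T.card ≤ ∑ x ∈ A, ∑ z ∈ B, a x z := by
  -- the case in which the root belongs to the first set
  have key : ∀ A B : Finset V, Disjoint A B → A ∪ B = insert y T → B.Nonempty → y ∈ A →
      c + T.card ≤ ∑ x ∈ A, ∑ z ∈ B, a x z := by
    intro A B hdis hAB hB hyA
    have hyB : y ∉ B := fun h => Finset.disjoint_left.mp hdis hyA h
    have hBT : B ⊆ T := by
      intro z hz
      have : z ∈ insert y T := hAB ▸ Finset.mem_union_right A hz
      rw [Finset.mem_insert] at this
      rcases this with rfl | h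
      · exact absurd hz hyB
      · exact h
    have hAT : A.erase y ⊆ T := by
      intro z hz
      rw [Finset.mem_erase] at hz
      have : z ∈ insert y T := hAB ▸ Finset.mem_union_left B hz.2
      rw [Finset.mem_insert] at this
      rcases this with rfl | h
      · exact absurd rfl hz.1
      · exact h
    have hT : T = A.erase y ∪ B := by
      apply Finset.Subset.antisymm
      · intro z hz
        have hzy : z ≠ y := fun he => hyT (he ▸ hz)
        have : z ∈ A ∪ B := hAB ▸ Finset.mem_insert_of_mem hz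
        rw [Finset.mem_union] at this ⊢
        rcases this with h | h
        · exact Or.inl (Finset.mem_erase.mpr ⟨hzy, h⟩)
        · exact Or.inr h
      · exact Finset.union_subset hAT hBT
    have hdis' : Disjoint (A.erase y) B := hdis.mono_left (Finset.erase_subset _ _)
    have hcard : (T.card : ℤ) = (A.erase y).card + B.card := by
      rw [hT, Finset.card_union_of_disjoint hdis']
      push_cast
      rfl
    rw [← Finset.add_sum_erase A _ hyA]
    have e1 : ∑ z ∈ B, a y z = B.card * (c + 1) := by
      rw [Finset.sum_congr rfl fun z hz => h1 z (hBT hz), Finset.sum_const, nsmul_eq_mul]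
    have e2 : ∑ x ∈ A.erase y, ∑ z ∈ B, a x z = (A.erase y).card * B.card := by
      have : ∀ x ∈ A.erase y, ∑ z ∈ B, a x z = (B.card : ℤ) := by
        intro x hx
        rw [Finset.sum_congr rfl fun z hz => h2 x (hAT hx) z (hBT hz) (fun he =>
          Finset.disjoint_left.mp hdis' hx (he ▸ hz)), Finset.sum_const]
        simp
      rw [Finset.sum_congr rfl this, Finset.sum_const, nsmul_eq_mul]
    rw [e1, e2, hcard]
    have hs : 1 ≤ (B.card : ℤ) := by
      have := Finset.card_pos.mpr hB
      omega
    have hr : 0 ≤ ((A.erase y).card : ℤ) := by positivity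
    nlinarith [mul_nonneg (sub_nonneg.mpr hs) (add_nonneg hc hr)]
  have hy : y ∈ A ∪ B := hAB ▸ Finset.mem_insert_self y T
  rw [Finset.mem_union] at hy
  rcases hy with hy | hy
  · exact key A B hdis hAB hB hy
  · have h3 := key B A hdis.symm (by rw [Finset.union_comm]; exact hAB) hA hy
    rw [Finset.sum_comm]
    refine h3.trans (le_of_eq ?_)
    refine Finset.sum_congr rfl fun x _ => Finset.sum_congr rfl fun z _ => ha.symm x z

variable {V E : Type} [Fintype V] [Fintype E] [DecidableEq V] [DecidableEq E] (G : MGraph V E)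
  (k : ℕ)

/-- the weight of the points outside `W \ {y}` -/
def outs (W : Finset V) (y : V) : V ⊕ E × Fin (k - 1) → ℤ :=
  Sum.elim (fun x => if x ∈ W ∧ x ≠ y then 0 else 1)
    (fun q => if (G.src q.1 ∈ W ∧ G.src q.1 ≠ y) ∨ (G.tgt q.1 ∈ W ∧ G.tgt q.1 ≠ y) then 0 else 1)

/-- no edge leaves `W` except at `y` -/
def Closed (W : Finset V) (y : V) : Prop :=
  ∀ e, (G.src e ∈ W ∧ G.src e ≠ y → G.tgt e ∈ W) ∧ (G.tgt e ∈ W ∧ G.tgt e ≠ y → G.src e ∈ W)

variable {G k} {W : Finset V} {y : V}

lemma outs_cases (v : V ⊕ E × Fin (k - 1)) : outs G k W y v = 0 ∨ outs G k W y v = 1 := by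
  rcases v with x | q
  · simp only [outs, Sum.elim_inl]
    split_ifs
    · exact Or.inl rfl
    · exact Or.inr rfl
  · simp only [outs, Sum.elim_inr]
    split_ifs
    · exact Or.inl rfl
    · exact Or.inr rfl

lemma outs_nonneg (v : V ⊕ E × Fin (k - 1)) : 0 ≤ outs G k W y v := by
  rcases outs_cases (G := G) (W := W) (y := y) v with h | h <;> rw [h] <;> norm_num

lemma outs_le (v : V ⊕ E × Fin (k - 1)) : outs G k W y v ≤ 1 := by
  rcases outs_cases (G := G) (W := W) (y := y) v with h | h <;> rw [h] <;> norm_num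

lemma outs_one {e : E} (h : ¬ ((G.src e ∈ W ∧ G.src e ≠ y) ∨ (G.tgt e ∈ W ∧ G.tgt e ≠ y)))
    (i : ℕ) : outs G k W y (G.subPt k e i) = 1 := by
  unfold MGraph.subPt
  have h' := h
  rw [not_or] at h'
  split_ifs
  · simp only [outs, Sum.elim_inl]
    rw [if_neg h'.1]
  · simp only [outs, Sum.elim_inr]
    rw [if_neg h]
  · simp only [outs, Sum.elim_inl]
    rw [if_neg h'.2]

lemma outs_root (hcl : Closed G W y) {e : E}
    (h : (G.src e ∈ W ∧ G.src e ≠ y) ∨ (G.tgt e ∈ W ∧ G.tgt e ≠ y)) {i : ℕ}
    (h1 : outs G k W y (G.subPt k e i) = 1) : G.subPt k e i = Sum.inl y := by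
  unfold MGraph.subPt at h1 ⊢
  split_ifs at h1 ⊢ with h2 h3
  · simp only [outs, Sum.elim_inl] at h1
    have h4 : ¬ (G.src e ∈ W ∧ G.src e ≠ y) := by
      intro h4
      rw [if_pos h4] at h1
      exact absurd h1 (by norm_num)
    have h5 : G.tgt e ∈ W ∧ G.tgt e ≠ y := h.resolve_left h4
    have h6 := (hcl e).2 h5
    have h7 : G.src e = y := by
      by_contra hne
      exact h4 ⟨h6, hne⟩
    rw [h7]
  · simp only [outs, Sum.elim_inr] at h1
    rw [if_pos h] at h1
    exact absurd h1 (by norm_num)
  · simp only [outs, Sum.elim_inl] at h1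
    have h4 : ¬ (G.tgt e ∈ W ∧ G.tgt e ≠ y) := by
      intro h4
      rw [if_pos h4] at h1
      exact absurd h1 (by norm_num)
    have h5 : G.src e ∈ W ∧ G.src e ≠ y := h.resolve_right h4
    have h6 := (hcl e).1 h5
    have h7 : G.tgt e = y := by
      by_contra hne
      exact h4 ⟨h6, hne⟩
    rw [h7]

lemma cross (hcl : Closed G W y) {e : E} {i j : ℕ} (h1 : outs G k W y (G.subPt k e i) = 1)
    (h2 : outs G k W y (G.subPt k e j) = 0) : G.subPt k e i = Sum.inl y := by
  by_cases h : (G.src e ∈ W ∧ G.src e ≠ y) ∨ (G.tgt e ∈ W ∧ G.tgt e ≠ y)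
  · exact outs_root hcl h h1
  · rw [outs_one h j] at h2
    exact absurd h2 (by norm_num)

/-- a firing script with minimum at the root does not decrease the outer mass -/
lemma mass_join (hcl : Closed G W y) {g : V ⊕ E × Fin (k - 1) → ℤ}
    (hg : ∀ w, g (Sum.inl y) ≤ g w) : 0 ≤ ∑ v, outs G k W y v * (G.subdiv k).fire g v := by
  rw [(G.subdiv k).green (outs G k W y) g]
  refine Finset.sum_nonneg fun e' _ => ?_
  obtain ⟨e, m⟩ := e'
  change 0 ≤ (outs G k W y (G.subPt k e m) - outs G k W y (G.subPt k e (m + 1))) *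
    (g (G.subPt k e (m + 1)) - g (G.subPt k e m))
  rcases outs_cases (G := G) (W := W) (y := y) (G.subPt k e m) with h1 | h1 <;>
    rcases outs_cases (G := G) (W := W) (y := y) (G.subPt k e (m + 1)) with h2 | h2
  · rw [h1, h2]
    simp
  · rw [h1, h2, cross hcl h2 h1]
    have := hg (G.subPt k e m)
    linarith
  · rw [h1, h2, cross hcl h1 h2]
    have := hg (G.subPt k e (m + 1))
    linarith
  · rw [h1, h2]
    simp

lemma subPt_zero (e : E) : G.subPt k e 0 = Sum.inl (G.src e) := by simp [MGraph.subPt]

lemma subPt_last (hk : 1 ≤ k) (e : E) : G.subPt k e k = Sum.inl (G.tgt e) := by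
  have h2 : k ≠ 0 := by omega
  simp [MGraph.subPt, h2]

/-- telescoping along a path -/
lemma path_sum (δ : ℕ → ℤ) : ∑ m : Fin k, (δ m - δ (m + 1)) = δ 0 - δ k := by
  rw [Fin.sum_univ_eq_sum_range (fun m => δ m - δ (m + 1)) k, Finset.sum_range_sub']

/-- the cut of a level set on the paths between points of `B` -/
lemma cut_paths (hk : 1 ≤ k) (B : Finset V) (hB : ∀ x ∈ B, ¬ (x ∈ W ∧ x ≠ y))
    {χ : V ⊕ E × Fin (k - 1) → ℤ} (hχ : ∀ v, χ v = 0 ∨ χ v = 1) :
    ∑ x ∈ B.filter (fun x => χ (Sum.inl x) = 1), ∑ z ∈ B.filter (fun x => χ (Sum.inl x) = 0),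
      mult G x z ≤ ∑ e, (outs G k W y ((G.subdiv k).src e) * χ ((G.subdiv k).src e) -
        outs G k W y ((G.subdiv k).tgt e) * χ ((G.subdiv k).tgt e)) *
      (χ ((G.subdiv k).src e) - χ ((G.subdiv k).tgt e)) := by
  rw [sum_mult, Fintype.sum_prod_type]
  refine Finset.sum_le_sum fun e _ => ?_
  change _ ≤ ∑ m : Fin k, (outs G k W y (G.subPt k e m) * χ (G.subPt k e m) -
    outs G k W y (G.subPt k e (m + 1)) * χ (G.subPt k e (m + 1))) *
      (χ (G.subPt k e m) - χ (G.subPt k e (m + 1)))
  have hterm : ∀ p q : V ⊕ E × Fin (k - 1),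
      0 ≤ (outs G k W y p * χ p - outs G k W y q * χ q) * (χ p - χ q) := by
    intro p q
    have h1 := outs_nonneg (G := G) (W := W) (y := y) p
    have h2 := outs_nonneg (G := G) (W := W) (y := y) q
    rcases hχ p with h3 | h3 <;> rcases hχ q with h4 | h4 <;> rw [h3, h4] <;> linarith
  simp only [Finset.mem_filter]
  by_cases hc : (G.src e ∈ B ∧ χ (Sum.inl (G.src e)) = 1) ∧
      (G.tgt e ∈ B ∧ χ (Sum.inl (G.tgt e)) = 0)
  · have hc' : ¬ ((G.src e ∈ B ∧ χ (Sum.inl (G.src e)) = 0) ∧
        (G.tgt e ∈ B ∧ χ (Sum.inl (G.tgt e)) = 1)) := by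
      intro h
      have := hc.1.2
      rw [h.1.2] at this
      exact absurd this (by norm_num)
    rw [if_pos hc, if_neg hc', add_zero]
    have ho : ¬ ((G.src e ∈ W ∧ G.src e ≠ y) ∨ (G.tgt e ∈ W ∧ G.tgt e ≠ y)) := by
      rw [not_or]
      exact ⟨hB _ hc.1.1, hB _ hc.2.1⟩
    have h1 := path_sum (k := k) (fun m => χ (G.subPt k e m))
    rw [subPt_zero, subPt_last hk, hc.1.2, hc.2.2] at h1
    rw [← sub_zero (1 : ℤ), ← h1]
    refine Finset.sum_le_sum fun m _ => ?_
    rw [outs_one ho, outs_one ho, one_mul, one_mul]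
    rcases hχ (G.subPt k e m) with h3 | h3 <;> rcases hχ (G.subPt k e (m + 1)) with h4 | h4 <;>
      rw [h3, h4] <;> norm_num
  · rw [if_neg hc, zero_add]
    split_ifs with hc'
    · have ho : ¬ ((G.src e ∈ W ∧ G.src e ≠ y) ∨ (G.tgt e ∈ W ∧ G.tgt e ≠ y)) := by
        rw [not_or]
        exact ⟨hB _ hc'.1.1, hB _ hc'.2.1⟩
      have h1 := path_sum (k := k) (fun m => - χ (G.subPt k e m))
      rw [subPt_zero, subPt_last hk, hc'.1.2, hc'.2.2] at h1
      have h2 : (1 : ℤ) = -0 - -1 := by norm_num
      rw [h2, ← h1]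
      refine Finset.sum_le_sum fun m _ => ?_
      rw [outs_one ho, outs_one ho, one_mul, one_mul]
      rcases hχ (G.subPt k e m) with h3 | h3 <;> rcases hχ (G.subPt k e (m + 1)) with h4 | h4 <;>
        rw [h3, h4] <;> norm_num
    · exact Finset.sum_nonneg fun m _ => hterm _ _

/-- **Lower bound.** -/
theorem lower_bound (hk : 1 ≤ k) {W : Finset V} {y : V} {c : ℤ} (hch : Chain (mult G) W y c) :
    0 ≤ c → Closed G W y → ∀ D : V ⊕ E × Fin (k - 1) → ℤ,
    (∀ x ∈ W, ∃ g : V ⊕ E × Fin (k - 1) → ℤ, (∀ p, 0 ≤ D p + (G.subdiv k).fire g p) ∧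
      1 ≤ D (Sum.inl x) + (G.subdiv k).fire g (Sum.inl x)) →
    (∃ g : V ⊕ E × Fin (k - 1) → ℤ, (∀ p, 0 ≤ D p + (G.subdiv k).fire g p) ∧
      c ≤ ∑ p, outs G k W y p * (D p + (G.subdiv k).fire g p)) →
    (W.card : ℤ) - 1 + c ≤ ∑ p, D p := by
  induction hch with
  | base y c =>
    intro _ _ D _ hg
    obtain ⟨g, hg1, hg2⟩ := hg
    have h1 : ∑ p, outs G k {y} y p * (D p + (G.subdiv k).fire g p) ≤
        ∑ p, (D p + (G.subdiv k).fire g p) := by
      refine Finset.sum_le_sum fun p _ => ?_
      have h2 := outs_le (G := G) (W := {y}) (y := y) p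
      have h3 := hg1 p
      nlinarith
    rw [Finset.sum_add_distrib, (G.subdiv k).sum_fire, add_zero] at h1
    rw [Finset.card_singleton]
    push_cast
    linarith
  | step W y c T b W' hyT hbT hbW hdis hW h1 h2 h3 h4 ih =>
    intro hc hcl D hcov hg
    have hyB : y ∉ T.erase b := fun h => hyT (Finset.mem_of_mem_erase h)
    have hTpos : 1 ≤ T.card := Finset.card_pos.mpr ⟨b, hbT⟩
    have hcard : (W.card : ℤ) = T.card + W'.card := by
      rw [hW, Finset.card_union_of_disjoint hdis, Finset.card_insert_of_notMem hyB,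
        Finset.card_erase_of_mem hbT]
      push_cast [Nat.cast_sub hTpos]
      ring
    have hW'W : W' ⊆ W := by
      rw [hW]
      exact Finset.subset_union_right
    have hyW' : y ∉ W' := fun h => Finset.disjoint_left.mp hdis (Finset.mem_insert_self _ _) h
    have hTW : T ⊆ W := by
      intro x hx
      rw [hW, Finset.mem_union]
      by_cases hxb : x = b
      · exact Or.inr (hxb ▸ hbW)
      · exact Or.inl (Finset.mem_insert_of_mem (Finset.mem_erase.mpr ⟨hxb, hx⟩))
    have hyW : y ∈ W := by
      rw [hW, Finset.mem_union]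
      exact Or.inl (Finset.mem_insert_self _ _)
    have hWsplit : ∀ x ∈ W, x ∉ W' → x ∈ insert y (T.erase b) := by
      intro x hx hx'
      rw [hW, Finset.mem_union] at hx
      exact hx.resolve_right hx'
    -- the part is closed
    have hcl' : Closed G W' b := by
      intro e
      constructor
      · rintro ⟨he1, he2⟩
        by_contra hcon
        have h5 : G.tgt e ∈ W := (hcl e).1 ⟨hW'W he1, fun he => hyW' (he ▸ he1)⟩
        have h6 := hWsplit _ h5 hcon
        have h7 := h3 _ h6 _ he1 he2
        rw [(mult_wg G).symm] at h7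
        exact mult_zero G h7 e ⟨rfl, rfl⟩
      · rintro ⟨he1, he2⟩
        by_contra hcon
        have h5 : G.src e ∈ W := (hcl e).2 ⟨hW'W he1, fun he => hyW' (he ▸ he1)⟩
        have h6 := hWsplit _ h5 hcon
        have h7 := h3 _ h6 _ he1 he2
        exact mult_zero G h7 e ⟨rfl, rfl⟩
    -- points of the block
    have hBlock : ∀ x ∈ insert y T, ¬ (x ∈ W' ∧ x ≠ b) := by
      intro x hx hx'
      rw [Finset.mem_insert] at hx
      rcases hx with rfl | hx
      · exact hyW' hx'.1
      · exact Finset.disjoint_left.mp hdis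
          (Finset.mem_insert_of_mem (Finset.mem_erase.mpr ⟨hx'.2, hx⟩)) hx'.1
    -- it suffices to find a representative with large outer mass
    have suff : (∃ g : V ⊕ E × Fin (k - 1) → ℤ, (∀ p, 0 ≤ D p + (G.subdiv k).fire g p) ∧
        c + T.card ≤ ∑ p, outs G k W' b p * (D p + (G.subdiv k).fire g p)) →
        (W.card : ℤ) - 1 + c ≤ ∑ p, D p := by
      intro hg'
      have h5 := ih (by positivity) hcl' D (fun x hx => hcov x (hW'W hx)) hg'
      rw [hcard]
      linarith
    by_cases hcase : ∃ g₁ g₂ : V ⊕ E × Fin (k - 1) → ℤ, (∀ p, 0 ≤ D p + (G.subdiv k).fire g₁ p) ∧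
        (∀ p, 0 ≤ D p + (G.subdiv k).fire g₂ p) ∧ ∃ x ∈ insert y T, ∃ z ∈ insert y T,
          g₂ (Sum.inl x) - g₁ (Sum.inl x) < g₂ (Sum.inl z) - g₁ (Sum.inl z)
    · -- two representatives that differ on the block
      obtain ⟨g₁, g₂, e₁, e₂, x, hx, z, hz, hlt⟩ := hcase
      apply suff
      set h : V ⊕ E × Fin (k - 1) → ℤ := fun w => g₂ w - g₁ w with hh
      set t : ℤ := h (Sum.inl z) with ht
      have e₃ : ∀ p, 0 ≤ (D p + (G.subdiv k).fire g₁ p) + (G.subdiv k).fire h p := by
        intro p
        have h5 := (G.subdiv k).fire_sub g₂ g₁ p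
        rw [hh, h5]
        have := e₂ p
        linarith
      have e₄ := eff_max (G.subdiv k) (D := fun p => D p + (G.subdiv k).fire g₁ p) e₁ e₃ t
      have e₅ := eff_level (G.subdiv k) (D := fun p => D p + (G.subdiv k).fire g₁ p) e₁ e₃ t
      set χ : V ⊕ E × Fin (k - 1) → ℤ := fun w => if t ≤ h w then 1 else 0 with hχd
      have hχ : ∀ v, χ v = 0 ∨ χ v = 1 := by
        intro v
        simp only [hχd]
        split_ifs
        · exact Or.inr rfl
        · exact Or.inl rfl
      have hfire : ∀ p, (G.subdiv k).fire (fun w => g₁ w + max (h w) t) p =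
          (G.subdiv k).fire g₁ p + (G.subdiv k).fire (fun w => max (h w) t) p := fun p =>
        (G.subdiv k).fire_add g₁ (fun w => max (h w) t) p
      refine ⟨fun w => g₁ w + max (h w) t, fun p => ?_, ?_⟩
      · rw [hfire]
        have := e₄ p
        linarith
      · have hmass := mass_ge (G.subdiv k)
          (D := fun p => D p + (G.subdiv k).fire (fun w => g₁ w + max (h w) t) p)
          (ω := outs G k W' b) (χ := χ) (by
            intro v
            rw [hfire]
            have := e₄ v
            linarith) (fun v => outs_nonneg v) hχ (by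
            intro v
            rw [hfire]
            have := e₅ v
            linarith)
        refine le_trans ?_ hmass
        refine le_trans ?_ (cut_paths hk (insert y T) hBlock hχ)
        refine cut_block (mult_wg G) hc hyT h1 h2 _ _ ?_ ?_ ?_ ?_
        · rw [Finset.disjoint_left]
          intro w hw hw'
          rw [Finset.mem_filter] at hw hw'
          have := hw.2
          rw [hw'.2] at this
          exact absurd this (by norm_num)
        · ext w
          rw [Finset.mem_union, Finset.mem_filter, Finset.mem_filter]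
          constructor
          · rintro (hw | hw) <;> exact hw.1
          · intro hw
            rcases hχ (Sum.inl w) with h5 | h5
            · exact Or.inr ⟨hw, h5⟩
            · exact Or.inl ⟨hw, h5⟩
        · refine ⟨z, Finset.mem_filter.mpr ⟨hz, ?_⟩⟩
          simp only [hχd]
          rw [if_pos (le_of_eq ht)]
        · refine ⟨x, Finset.mem_filter.mpr ⟨hx, ?_⟩⟩
          simp only [hχd]
          rw [if_neg]
          rw [not_le]
          exact hlt
    · -- all representatives agree on the block
      push Not at hcase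
      have hconst : ∀ g₁ g₂ : V ⊕ E × Fin (k - 1) → ℤ,
          (∀ p, 0 ≤ D p + (G.subdiv k).fire g₁ p) → (∀ p, 0 ≤ D p + (G.subdiv k).fire g₂ p) →
          ∀ x ∈ insert y T, g₂ (Sum.inl x) - g₁ (Sum.inl x) =
            g₂ (Sum.inl y) - g₁ (Sum.inl y) := by
        intro g₁ g₂ e₁ e₂ x hx
        have h5 := hcase g₁ g₂ e₁ e₂ x hx y (Finset.mem_insert_self _ _)
        have h6 := hcase g₁ g₂ e₁ e₂ y (Finset.mem_insert_self _ _) x hx
        omega
      have hjoin : ∀ S : Finset V, S ⊆ T → ∃ g : V ⊕ E × Fin (k - 1) → ℤ,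
          (∀ p, 0 ≤ D p + (G.subdiv k).fire g p) ∧
          (c ≤ ∑ p, outs G k W y p * (D p + (G.subdiv k).fire g p)) ∧
          ∀ x ∈ S, 1 ≤ D (Sum.inl x) + (G.subdiv k).fire g (Sum.inl x) := by
        intro S
        induction S using Finset.induction_on with
        | empty =>
          intro _
          obtain ⟨g, hg1, hg2⟩ := hg
          exact ⟨g, hg1, hg2, fun x hx => absurd hx (Finset.notMem_empty x)⟩
        | insert x S hxS ihS =>
          intro hST
          obtain ⟨g₁, a₁, a₂, a₃⟩ := ihS ((Finset.subset_insert x S).trans hST)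
          have hxT : x ∈ T := hST (Finset.mem_insert_self x S)
          obtain ⟨g₂, b₁, b₂⟩ := hcov x (hTW hxT)
          set h : V ⊕ E × Fin (k - 1) → ℤ := fun w => g₂ w - g₁ w with hh
          set t : ℤ := h (Sum.inl y) with ht
          have hc' : ∀ x ∈ insert y T, h (Sum.inl x) = t := fun x hx => hconst g₁ g₂ a₁ b₁ x hx
          have hfh : ∀ p, (G.subdiv k).fire h p =
              (G.subdiv k).fire g₂ p - (G.subdiv k).fire g₁ p :=
            fun p => (G.subdiv k).fire_sub g₂ g₁ p
          have hfire : ∀ p, (G.subdiv k).fire (fun w => g₁ w + max (h w) t) p =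
              (G.subdiv k).fire g₁ p + (G.subdiv k).fire (fun w => max (h w) t) p := fun p =>
            (G.subdiv k).fire_add g₁ (fun w => max (h w) t) p
          have e₃ : ∀ p, 0 ≤ (D p + (G.subdiv k).fire g₁ p) + (G.subdiv k).fire h p := by
            intro p
            rw [hfh]
            have := b₁ p
            linarith
          have e₄ := eff_max (G.subdiv k) (D := fun p => D p + (G.subdiv k).fire g₁ p) a₁ e₃ t
          refine ⟨fun w => g₁ w + max (h w) t, fun p => ?_, ?_, fun z hz => ?_⟩
          · rw [hfire]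
            have := e₄ p
            linarith
          · have hm := mass_join (k := k) hcl (g := fun w => max (h w) t) (by
              intro w
              rw [← ht, max_self]
              exact le_max_right _ _)
            have h5 : ∑ p, outs G k W y p *
                (D p + (G.subdiv k).fire (fun w => g₁ w + max (h w) t) p) =
                ∑ p, outs G k W y p * (D p + (G.subdiv k).fire g₁ p) +
                ∑ p, outs G k W y p * (G.subdiv k).fire (fun w => max (h w) t) p := by
              rw [← Finset.sum_add_distrib]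
              refine Finset.sum_congr rfl fun p _ => ?_
              rw [hfire]
              ring
            rw [h5]
            linarith
          · rw [hfire]
            have hzT : z ∈ insert y T := Finset.mem_insert_of_mem (hST hz)
            rw [Finset.mem_insert] at hz
            rcases hz with rfl | hz
            · have h5 := fire_max_ge (G.subdiv k) (h := h) (t := t) (v := Sum.inl z)
                (le_of_eq (hc' z hzT).symm)
              rw [hfh] at h5
              linarith
            · have h5 := fire_max_zero (G.subdiv k) (h := h) (t := t) (v := Sum.inl z)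
                (le_of_eq (hc' z hzT))
              have := a₃ z hz
              linarith
      obtain ⟨g, a₁, a₂, a₃⟩ := hjoin T (Finset.Subset.refl T)
      apply suff
      refine ⟨g, a₁, ?_⟩
      -- compare the weights
      set ind : V ⊕ E × Fin (k - 1) → ℤ := Sum.elim (fun x => if x ∈ T then 1 else 0) (fun _ => 0)
        with hind
      have h5 : ∀ p, outs G k W y p + ind p ≤ outs G k W' b p := by
        intro p
        rcases p with x | q
        · simp only [hind, outs, Sum.elim_inl]
          by_cases hxT : x ∈ T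
          · have hxW := hTW hxT
            have hxy : x ≠ y := fun he => hyT (he ▸ hxT)
            rw [if_pos ⟨hxW, hxy⟩, if_pos hxT,
              if_neg (hBlock x (Finset.mem_insert_of_mem hxT))]
            norm_num
          · rw [if_neg hxT, add_zero]
            by_cases hx : x ∈ W ∧ x ≠ y
            · rw [if_pos hx]
              split_ifs <;> norm_num
            · rw [if_neg hx, if_neg]
              rintro ⟨hx1, hx2⟩
              exact hx ⟨hW'W hx1, fun he => hyW' (he ▸ hx1)⟩
        · simp only [hind, outs, Sum.elim_inr, add_zero]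
          by_cases hq : (G.src q.1 ∈ W' ∧ G.src q.1 ≠ b) ∨ (G.tgt q.1 ∈ W' ∧ G.tgt q.1 ≠ b)
          · have hq' : (G.src q.1 ∈ W ∧ G.src q.1 ≠ y) ∨ (G.tgt q.1 ∈ W ∧ G.tgt q.1 ≠ y) := by
              rcases hq with hq | hq
              · exact Or.inl ⟨hW'W hq.1, fun he => hyW' (he ▸ hq.1)⟩
              · exact Or.inr ⟨hW'W hq.1, fun he => hyW' (he ▸ hq.1)⟩
            rw [if_pos hq, if_pos hq']
          · rw [if_neg hq]
            split_ifs <;> norm_num
      have h6 : ∑ p, outs G k W y p * (D p + (G.subdiv k).fire g p) +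
          ∑ p, ind p * (D p + (G.subdiv k).fire g p) ≤
          ∑ p, outs G k W' b p * (D p + (G.subdiv k).fire g p) := by
        rw [← Finset.sum_add_distrib]
        refine Finset.sum_le_sum fun p _ => ?_
        rw [← add_mul]
        exact mul_le_mul_of_nonneg_right (h5 p) (a₁ p)
      have h7 : (T.card : ℤ) ≤ ∑ p, ind p * (D p + (G.subdiv k).fire g p) := by
        rw [Fintype.sum_sum_type]
        simp only [hind, Sum.elim_inl, Sum.elim_inr, zero_mul, Finset.sum_const_zero, add_zero,
          ite_mul, one_mul]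
        rw [Finset.sum_ite_mem, Finset.univ_inter, Finset.card_eq_sum_ones, Nat.cast_sum]
        refine Finset.sum_le_sum fun x hx => ?_
        have := a₃ x hx
        push_cast
        exact this
      linarith

end Q122.QB
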