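import Pool.Agent.Q122.QB.Str
import Pool.Agent.Q122.QB.LB
import Pool.Agent.Q102.QB.RK
import Pool.Agent.Q102.QB.RD
import Pool.Agent.Q102.QB.IP

set_option autoImplicit false

/-!
# Quasi-banana graphs: assembly
-/

namespace Q122.QB

open Q122.Gon Q122.Gon.MGraph

set_option linter.unusedSectionVars false

section defs

variable {V E : Type} [Fintype V] [Fintype E] [DecidableEq V]

/-- The divisor `D` has rank exactly `r`. -/
def RankEq (G : MGraph V E) (r : ℕ) (D : V → ℤ) : Prop :=
  G.RankGe r D ∧ ¬ G.RankGe (r + 1) D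

/-- The `r`-th gonality: the least degree of a divisor of rank `r`. -/
noncomputable def gonR (G : MGraph V E) (r : ℕ) : ℕ :=
  sInf {d : ℕ | ∃ D : V → ℤ, ∑ v, D v = (d : ℤ) ∧ RankEq G r D}

/-- The divisor `D` realises the `r`-th gonality. -/
def Realises (G : MGraph V E) (r : ℕ) (D : V → ℤ) : Prop :=
  RankEq G r D ∧ ∑ v, D v = (gonR G r : ℤ)

/-- The graph is gonality-tight. -/
def Tight (G : MGraph V E) : Prop := gonR G 2 = gonR G 1 + 1

/-- The divisor `D_v = v + ∑ w`. -/
def Dv (v w : V) : ℤ := (if w = v then 1 else 0) + 1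

/-- The graph is a quasi-banana graph. -/
def QuasiBanana (G : MGraph V E) : Prop :=
  G.Connected ∧ Tight G ∧ ∃ v : V, Realises G 2 (Dv v)

/-! ### Gonalities -/

/-- the indicator divisor of a point -/
def pt (v w : V) : ℤ := if w = v then 1 else 0

lemma pt_nonneg (v w : V) : 0 ≤ pt v w := by
  unfold pt
  split_ifs <;> norm_num

lemma sum_pt (v : V) : ∑ w, pt v w = 1 := by
  simp [pt]

lemma rank_drop (G : MGraph V E) {r : ℕ} {D : V → ℤ} (h : G.RankGe (r + 1) D) (v : V) :
    G.RankGe r (fun w => D w - pt v w) := by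
  intro E' h0 hs
  obtain ⟨D', h1, h2⟩ := h (fun w => pt v w + E' w) (fun w => add_nonneg (pt_nonneg v w) (h0 w)) (by
    rw [Finset.sum_add_distrib, sum_pt, hs]
    push_cast
    ring)
  refine ⟨D', ?_, h2⟩
  obtain ⟨f, hf⟩ := h1
  refine ⟨f, fun w => ?_⟩
  rw [hf]
  ring

lemma sum_drop (D : V → ℤ) (v : V) : ∑ w, (D w - pt v w) = ∑ w, D w - 1 := by
  rw [Finset.sum_sub_distrib, sum_pt]

lemma rank_deg (G : MGraph V E) {r : ℕ} {D : V → ℤ} (v : V) (h : G.RankGe r D) :
    (r : ℤ) ≤ ∑ w, D w := by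
  obtain ⟨D', ⟨f, hf⟩, h2⟩ := h (fun w => r * pt v w)
    (fun w => mul_nonneg (by positivity) (pt_nonneg v w)) (by
      rw [← Finset.mul_sum, sum_pt, mul_one])
  have h3 : 0 ≤ ∑ w, D' w := Finset.sum_nonneg fun w _ => h2 w
  rw [Finset.sum_congr rfl fun w _ => hf w, Finset.sum_add_distrib, G.sum_fire,
    Finset.sum_sub_distrib, ← Finset.mul_sum, sum_pt] at h3
  linarith

/-- every divisor of rank at least `r` has degree at least the `r`-th gonality -/
lemma gonR_le (G : MGraph V E) (v : V) (r : ℕ) : ∀ (d : ℕ) (D : V → ℤ), ∑ w, D w = (d : ℤ) →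
    G.RankGe r D → gonR G r ≤ d := by
  intro d
  induction d with
  | zero =>
    intro D hD h
    have h1 := rank_deg G v h
    have hr : r = 0 := by omega
    refine Nat.sInf_le ⟨D, hD, h, fun h' => ?_⟩
    have h2 := rank_deg G v h'
    rw [hD] at h2
    push_cast at h2
    omega
  | succ d ih =>
    intro D hD h
    by_cases h' : G.RankGe (r + 1) D
    · have h1 := ih (fun w => D w - pt v w) (by rw [sum_drop, hD]; push_cast; ring)
        (rank_drop G h' v)
      omega
    · exact Nat.sInf_le ⟨D, hD, h, h'⟩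

lemma gonR_le' (G : MGraph V E) (v : V) {r : ℕ} {D : V → ℤ} (h : G.RankGe r D) :
    (gonR G r : ℤ) ≤ ∑ w, D w := by
  have h1 := rank_deg G v h
  obtain ⟨d, hd⟩ := Int.eq_ofNat_of_zero_le (le_trans (by positivity) h1)
  rw [hd]
  exact_mod_cast gonR_le G v r d D hd h

/-- characterisation of the gonality -/
lemma gonR_eq (G : MGraph V E) (v : V) {r d : ℕ} {D : V → ℤ} (hD : ∑ w, D w = (d : ℤ))
    (h : G.RankGe r D) (hlow : ∀ D' : V → ℤ, G.RankGe r D' → (d : ℤ) ≤ ∑ w, D' w) :
    gonR G r = d := by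
  have hne : ¬ G.RankGe (r + 1) D := by
    intro h'
    have h1 := hlow _ (rank_drop G h' v)
    rw [sum_drop, hD] at h1
    omega
  apply le_antisymm
  · exact Nat.sInf_le ⟨D, hD, h, hne⟩
  · refine le_csInf ⟨d, D, hD, h, hne⟩ ?_
    rintro d' ⟨D', hD', h', -⟩
    have := hlow D' h'
    rw [hD'] at this
    exact_mod_cast this

/-- connectedness in terms of the multiplicities -/
lemma conn_of_connected (G : MGraph V E) (h : G.Connected) : Conn (mult G) Finset.univ := by
  intro S _ hne hSne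
  obtain ⟨x, hx⟩ := hne
  obtain ⟨z, hz⟩ : ∃ z, z ∉ S := by
    by_contra hcon
    push Not at hcon
    exact hSne (Finset.eq_univ_iff_forall.mpr hcon)
  by_contra hcon
  push Not at hcon
  have h1 : ∀ w, Relation.ReflTransGen G.Adj x w → w ∈ S := by
    intro w hw
    induction hw with
    | refl => exact hx
    | tail _ hab ih =>
      by_contra hcS
      have h2 := hcon _ ih _ (Finset.mem_univ _) hcS
      have h3 := adj_mult G hab
      omega
  exact hz (h1 z (h.2 x z))

end defs

section main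

variable {V E : Type} [Fintype V] [Fintype E] [DecidableEq V] [DecidableEq E]

lemma sum_ext (k : ℕ) (D : V → ℤ) : ∑ p, ext E k D p = ∑ v, D v := by
  rw [Fintype.sum_sum_type]
  simp [ext]

lemma sum_Dv (v : V) : ∑ w, Dv v w = (Fintype.card V : ℤ) + 1 := by
  unfold Dv
  rw [Finset.sum_add_distrib]
  simp [add_comm]

/-- the hypotheses of the structure theorem -/
lemma hyp_of (G : MGraph V E) (hG : G.Connected) {v : V} (h2 : G.RankGe 2 (Dv v))
    (hlow : ∀ D : V → ℤ, G.RankGe 1 D → (Fintype.card V : ℤ) ≤ ∑ w, D w) :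
    Hyp (mult G) Finset.univ v 1 where
  ha := mult_wg G
  hc := le_refl 1
  conn := conn_of_connected G hG
  yW := Finset.mem_univ v
  rr := by
    intro w _ _
    obtain ⟨D', ⟨f, hf⟩, h1⟩ := h2 (fun x => 2 * pt w x)
      (fun x => mul_nonneg (by norm_num) (pt_nonneg w x)) (by
        rw [← Finset.mul_sum, sum_pt]
        norm_num)
    refine ⟨f, fun x _ => ?_⟩
    have h3 := h1 x
    rw [hf] at h3
    rw [Lap_mult]
    unfold Dv pt at h3
    beta_reduce at h3
    by_cases a1 : x = v <;> by_cases a2 : x = w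
    · rw [if_pos a1, if_pos a2] at h3 ⊢
      linarith
    · rw [if_pos a1, if_neg a2] at h3 ⊢
      linarith
    · rw [if_neg a1, if_pos a2] at h3 ⊢
      linarith
    · rw [if_neg a1, if_neg a2] at h3 ⊢
      linarith
  gg := by
    intro D h0 h1 hcov
    have h3 : G.RankGe 1 D := by
      rw [rankGe_one_iff, rankOne_iff]
      intro x
      obtain ⟨f, hf1, hf2⟩ := hcov x (Finset.mem_univ x)
      refine ⟨f, fun w => ?_, ?_⟩
      · have := hf1 w (Finset.mem_univ w)
        rw [Lap_mult] at this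
        linarith
      · rw [Lap_mult] at hf2
        linarith
    have := hlow D h3
    rw [Finset.card_univ]
    linarith

/-- the lower bound for the first gonality of the subdivision -/
lemma low_sub (G : MGraph V E) {k : ℕ} (hk : 1 ≤ k) {v : V}
    (hch : Chain (mult G) Finset.univ v 1) (D : V ⊕ E × Fin (k - 1) → ℤ)
    (hD : (G.subdiv k).RankGe 1 D) : (Fintype.card V : ℤ) ≤ ∑ p, D p := by
  rw [rankGe_one_iff, rankOne_iff] at hD
  have h1 := lower_bound hk hch (by norm_num) (fun e => ⟨fun _ => Finset.mem_univ _,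
    fun _ => Finset.mem_univ _⟩) D (fun x _ => hD (Sum.inl x)) (by
      obtain ⟨g, hg1, hg2⟩ := hD (Sum.inl v)
      refine ⟨g, hg1, ?_⟩
      have h2 : outs G k Finset.univ v (Sum.inl v) * (D (Sum.inl v) +
          (G.subdiv k).fire g (Sum.inl v)) ≤
          ∑ p, outs G k Finset.univ v p * (D p + (G.subdiv k).fire g p) :=
        Finset.single_le_sum (f := fun p => outs G k Finset.univ v p *
          (D p + (G.subdiv k).fire g p)) (fun p _ => mul_nonneg (outs_nonneg p) (hg1 p))
          (Finset.mem_univ _)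
      have h3 : outs G k Finset.univ v (Sum.inl v) = 1 := by
        simp [outs]
      rw [h3, one_mul] at h2
      linarith)
  rw [Finset.card_univ] at h1
  linarith

/-- **Main theorem.** -/
theorem main (G : MGraph V E) (hG : QuasiBanana G) (k : ℕ) (hk : 1 ≤ k) :
    Tight (G.subdiv k) ∧ ∀ D : V → ℤ, Realises G 2 D → Realises (G.subdiv k) 2 (ext E k D) := by
  obtain ⟨hcon, htight, v, ⟨hv2, hv3⟩, hvs⟩ := hG
  rw [sum_Dv] at hvs
  have hn2 : gonR G 2 = Fintype.card V + 1 := by
    have : (gonR G 2 : ℤ) = ((Fintype.card V + 1 : ℕ) : ℤ) := by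
      rw [← hvs]
      push_cast
      rfl
    exact_mod_cast this
  have hn1 : gonR G 1 = Fintype.card V := by
    unfold Tight at htight
    omega
  have hlow : ∀ D : V → ℤ, G.RankGe 1 D → (Fintype.card V : ℤ) ≤ ∑ w, D w := by
    intro D hD
    rw [← hn1]
    exact gonR_le' G v hD
  have hhyp := hyp_of G hcon hv2 hlow
  have hch := chain_of_hyp _ _ _ _ rfl hhyp
  have hlowH := low_sub G hk hch
  have hrk : ∀ D : V → ℤ, G.RankGe 2 D → (G.subdiv k).RankGe 2 (ext E k D) :=
    fun D hD => Q102.QB.t_RK Q102.QB.t_IP Q102.QB.t_RD V E G k hcon hk 2 D hD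
  have hlowH2 : ∀ D : V ⊕ E × Fin (k - 1) → ℤ, (G.subdiv k).RankGe 2 D →
      ((Fintype.card V + 1 : ℕ) : ℤ) ≤ ∑ p, D p := by
    intro D hD
    have h1 := hlowH _ (rank_drop (G.subdiv k) hD (Sum.inl v))
    rw [sum_drop] at h1
    push_cast
    linarith
  have hH1 : gonR (G.subdiv k) 1 = Fintype.card V := by
    refine gonR_eq (G.subdiv k) (Sum.inl v)
      (D := fun w => ext E k (Dv v) w - pt (Sum.inl v) w) ?_ ?_ hlowH
    · rw [sum_drop, sum_ext, sum_Dv]
      ring
    · exact rank_drop (G.subdiv k) (hrk _ hv2) (Sum.inl v)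
  have hH2 : gonR (G.subdiv k) 2 = Fintype.card V + 1 := by
    refine gonR_eq (G.subdiv k) (Sum.inl v) (D := ext E k (Dv v)) ?_ (hrk _ hv2) hlowH2
    rw [sum_ext, sum_Dv]
    push_cast
    rfl
  refine ⟨?_, ?_⟩
  · unfold Tight
    rw [hH1, hH2]
  · rintro D ⟨⟨h1, -⟩, h2⟩
    rw [hn2] at h2
    refine ⟨⟨hrk D h1, fun h3 => ?_⟩, ?_⟩
    · have h4 := hlowH2 _ (rank_drop (G.subdiv k) h3 (Sum.inl v))
      rw [sum_drop, sum_ext, h2] at h4
      omega
    · rw [sum_ext, h2, hH2]

end main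

end Q122.QB
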