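import Pool.Agent.Q122.QB.Defs
import Pool.Agent.Q122.Gon.Subdiv

set_option autoImplicit false

/-!
# Firing scripts: maxima, joins, cuts
-/

namespace Q122.QB

open Q122.Gon Q122.Gon.MGraph

set_option linter.unusedSectionVars false

section basic

variable {X F : Type} [Fintype X] [Fintype F] [DecidableEq X] (H : MGraph X F)

lemma fire_mono {f g : X → ℤ} {v : X} (h : ∀ w, f w - f v ≤ g w - g v) : H.fire f v ≤ H.fire g v := by
  unfold MGraph.fire
  refine Finset.sum_le_sum fun e _ => ?_
  have h1 := h (H.tgt e)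
  have h2 := h (H.src e)
  split_ifs <;> linarith

lemma fire_const (κ : ℤ) (v : X) : H.fire (fun _ => κ) v = 0 := by
  simp [MGraph.fire]

lemma fire_shift (f : X → ℤ) (κ : ℤ) (v : X) : H.fire (fun w => f w + κ) v = H.fire f v := by
  rw [H.fire_add f (fun _ => κ), fire_const, add_zero]

lemma fire_max_ge {h : X → ℤ} {t : ℤ} {v : X} (hv : t ≤ h v) :
    H.fire h v ≤ H.fire (fun w => max (h w) t) v := by
  refine fire_mono H fun w => ?_
  rw [max_eq_left hv]
  have := le_max_left (h w) t
  linarith

lemma fire_max_zero {h : X → ℤ} {t : ℤ} {v : X} (hv : h v ≤ t) :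
    0 ≤ H.fire (fun w => max (h w) t) v := by
  rw [← fire_const H 0 v]
  refine fire_mono H fun w => ?_
  rw [max_eq_right hv]
  have := le_max_right (h w) t
  linarith

/-- intermediate divisors are effective -/
lemma eff_max {D h : X → ℤ} (h0 : ∀ v, 0 ≤ D v) (h1 : ∀ v, 0 ≤ D v + H.fire h v) (t : ℤ) (v : X) :
    0 ≤ D v + H.fire (fun w => max (h w) t) v := by
  rcases le_total t (h v) with hv | hv
  · have := fire_max_ge H hv
    have := h1 v
    linarith
  · have := fire_max_zero H hv
    have := h0 v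
    linarith

/-- firing the level set afterwards keeps the divisor effective -/
lemma eff_level {D h : X → ℤ} (h0 : ∀ v, 0 ≤ D v) (h1 : ∀ v, 0 ≤ D v + H.fire h v) (t : ℤ) (v : X) :
    0 ≤ D v + H.fire (fun w => max (h w) t) v + H.fire (fun w => if t ≤ h w then 1 else 0) v := by
  have h2 := eff_max H h0 h1 (t - 1) v
  have h3 : (fun w => max (h w) (t - 1) + 1) =
      fun w => max (h w) t + (if t ≤ h w then 1 else 0) := by
    funext w
    by_cases hw : t ≤ h w
    · rw [if_pos hw, max_eq_left hw, max_eq_left (by omega)]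
    · rw [if_neg hw, max_eq_right (by omega), max_eq_right (by omega)]
      ring
  have h4 := fire_shift H (fun w => max (h w) (t - 1)) 1 v
  rw [h3, H.fire_add (fun w => max (h w) t) (fun w => if t ≤ h w then 1 else 0)] at h4
  linarith

/-- mass against a weight with values in `[0, 1]`: every effective divisor dominates the cut of a
level set -/
lemma mass_ge {D ω χ : X → ℤ} (h0 : ∀ v, 0 ≤ D v) (hω : ∀ v, 0 ≤ ω v) (hχ : ∀ v, χ v = 0 ∨ χ v = 1)
    (h1 : ∀ v, 0 ≤ D v + H.fire χ v) :
    ∑ e, (ω (H.src e) * χ (H.src e) - ω (H.tgt e) * χ (H.tgt e)) *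
      (χ (H.src e) - χ (H.tgt e)) ≤ ∑ v, ω v * D v := by
  have h2 := H.green (fun v => ω v * χ v) χ
  have h3 : ∑ e, (ω (H.src e) * χ (H.src e) - ω (H.tgt e) * χ (H.tgt e)) *
      (χ (H.src e) - χ (H.tgt e)) = ∑ v, - (ω v * χ v * H.fire χ v) := by
    rw [Finset.sum_neg_distrib, h2, ← Finset.sum_neg_distrib]
    refine Finset.sum_congr rfl fun e _ => ?_
    ring
  rw [h3]
  refine Finset.sum_le_sum fun v _ => ?_
  have h4 := h1 v
  have h5 := hω v
  have h6 := h0 v
  rcases hχ v with h | h
  · rw [h]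
    have := mul_nonneg h5 h6
    linarith
  · rw [h]
    have := mul_nonneg h5 h4
    linarith

end basic

/-! ### Multiplicities -/

section mult

variable {V E : Type} [Fintype V] [Fintype E] [DecidableEq V] (G : MGraph V E)

/-- the number of edges between `x` and `z` -/
def mult (x z : V) : ℤ :=
  ∑ e, ((if G.src e = x ∧ G.tgt e = z then 1 else 0) + (if G.src e = z ∧ G.tgt e = x then 1 else 0))

lemma mult_wg : WG (mult G) where
  symm := by
    intro x z
    unfold mult
    refine Finset.sum_congr rfl fun e _ => ?_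
    rw [add_comm]
  nonneg := by
    intro x z
    unfold mult
    refine Finset.sum_nonneg fun e _ => ?_
    split_ifs <;> norm_num
  diag := by
    intro x
    unfold mult
    refine Finset.sum_eq_zero fun e _ => ?_
    have : ¬ (G.src e = x ∧ G.tgt e = x) := fun h => G.loopless e (h.1.trans h.2.symm)
    rw [if_neg this]
    rfl

lemma mult_zero {x z : V} (h : mult G x z = 0) (e : E) : ¬ (G.src e = x ∧ G.tgt e = z) := by
  intro he
  unfold mult at h
  rw [Finset.sum_eq_zero_iff_of_nonneg (fun e _ => by split_ifs <;> norm_num)] at h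
  have h1 := h e (Finset.mem_univ e)
  rw [if_pos he] at h1
  split_ifs at h1 <;> omega

lemma mult_pos {x z : V} (h : 0 < mult G x z) :
    ∃ e, (G.src e = x ∧ G.tgt e = z) ∨ (G.src e = z ∧ G.tgt e = x) := by
  by_contra hcon
  push Not at hcon
  have : mult G x z = 0 := by
    unfold mult
    refine Finset.sum_eq_zero fun e _ => ?_
    have h1 := hcon e
    rw [if_neg (fun h => h1.1 h.1 h.2), if_neg (fun h => h1.2 h.1 h.2)]
    rfl
  omega

lemma adj_mult {x z : V} (h : G.Adj x z) : 0 < mult G x z := by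
  obtain ⟨e, he⟩ := h
  unfold mult
  refine Finset.sum_pos' (fun e _ => by split_ifs <;> norm_num) ⟨e, Finset.mem_univ e, ?_⟩
  rcases he with he | he
  · rw [if_pos he]
    split_ifs <;> norm_num
  · rw [if_pos he]
    split_ifs <;> norm_num

omit [Fintype V] [Fintype E] [DecidableEq V] in
lemma and_mul₁ (A B : Prop) [Decidable A] [Decidable B] (t : ℤ) :
    (if A ∧ B then (1 : ℤ) else 0) * t = if B then (if A then t else 0) else 0 := by
  by_cases hA : A <;> by_cases hB : B <;> simp [hA, hB]

omit [Fintype V] [Fintype E] [DecidableEq V] in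
lemma and_mul₂ (A B : Prop) [Decidable A] [Decidable B] (t : ℤ) :
    (if A ∧ B then (1 : ℤ) else 0) * t = if A then (if B then t else 0) else 0 := by
  by_cases hA : A <;> by_cases hB : B <;> simp [hA, hB]

lemma Lap_mult (f : V → ℤ) (v : V) : Lap (mult G) Finset.univ f v = - G.fire f v := by
  unfold Lap mult MGraph.fire
  rw [← Finset.sum_neg_distrib]
  simp only [Finset.sum_mul]
  rw [Finset.sum_comm]
  refine Finset.sum_congr rfl fun e _ => ?_
  have h1 : ∀ z, ((if G.src e = v ∧ G.tgt e = z then (1 : ℤ) else 0) +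
      (if G.src e = z ∧ G.tgt e = v then 1 else 0)) * (f v - f z) =
      (if G.tgt e = z then (if G.src e = v then f v - f z else 0) else 0) +
      (if G.src e = z then (if G.tgt e = v then f v - f z else 0) else 0) := by
    intro z
    rw [add_mul, and_mul₁, and_mul₂]
  rw [Finset.sum_congr rfl fun z _ => h1 z, Finset.sum_add_distrib, Finset.sum_ite_eq,
    Finset.sum_ite_eq]
  simp only [Finset.mem_univ, if_true]
  split_ifs <;> ring

lemma sum_mult (A B : Finset V) : ∑ x ∈ A, ∑ z ∈ B, mult G x z =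
    ∑ e, ((if G.src e ∈ A ∧ G.tgt e ∈ B then 1 else 0) +
      (if G.src e ∈ B ∧ G.tgt e ∈ A then 1 else 0)) := by
  unfold mult
  have h1 : ∀ x ∈ A, ∑ z ∈ B, ∑ e, ((if G.src e = x ∧ G.tgt e = z then (1 : ℤ) else 0) +
      (if G.src e = z ∧ G.tgt e = x then 1 else 0)) =
      ∑ e, ((if G.src e = x then (if G.tgt e ∈ B then (1 : ℤ) else 0) else 0) +
        (if G.tgt e = x then (if G.src e ∈ B then 1 else 0) else 0)) := by
    intro x _
    rw [Finset.sum_comm]
    refine Finset.sum_congr rfl fun e _ => ?_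
    rw [Finset.sum_add_distrib]
    congr 1
    · by_cases a1 : G.src e = x
      · simp [a1]
      · simp [a1]
    · by_cases a1 : G.tgt e = x
      · simp [a1]
      · simp [a1]
  rw [Finset.sum_congr rfl h1, Finset.sum_comm]
  refine Finset.sum_congr rfl fun e _ => ?_
  rw [Finset.sum_add_distrib, Finset.sum_ite_eq, Finset.sum_ite_eq]
  congr 1
  · by_cases a1 : G.src e ∈ A <;> by_cases a2 : G.tgt e ∈ B <;> simp [a1, a2]
  · by_cases a1 : G.tgt e ∈ A <;> by_cases a2 : G.src e ∈ B <;> simp [a1, a2]

end mult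

end Q122.QB
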