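import Pool.Agent.Q122.QB.Defs
import Pool.Agent.Q122.Gon.HRank
import Pool.Agent.Q122.Gon.Subdiv

set_option autoImplicit false

/-!
# Statements of the project QB (quasi-banana graphs)
-/

namespace Q122.QB

open Q122.Gon

section

variable {V : Type} (E : Type)

/-- a divisor of `G` as a divisor of the subdivision -/
def ext (k : ℕ) (D : V → ℤ) : V ⊕ E × Fin (k - 1) → ℤ :=
  Sum.elim D (fun _ => 0)

end

/-- Job IP: a firing script of `G` interpolates to the subdivision. -/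
def S_IP : Prop := ∀ (V E : Type) [Fintype V] [Fintype E] [DecidableEq V] [DecidableEq E] (G : MGraph V E) (k : ℕ),
  1 ≤ k → ∀ f : V → ℤ, ∃ g : V ⊕ E × Fin (k - 1) → ℤ,
    (∀ v, (G.subdiv k).fire g (Sum.inl v) = G.fire f v) ∧
    ∀ q, (G.subdiv k).fire g (Sum.inr q) = 0

/-- Job RD: the vertices of `G` are rank-determining in the subdivision (Luo), rank one. -/
def S_RD : Prop := ∀ (V E : Type) [Fintype V] [Fintype E] [DecidableEq V] [DecidableEq E] (G : MGraph V E) (k : ℕ),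
  G.Connected → 1 ≤ k → ∀ D : V ⊕ E × Fin (k - 1) → ℤ,
    (∀ v : V, ∃ g : V ⊕ E × Fin (k - 1) → ℤ, (∀ w, 0 ≤ D w + (G.subdiv k).fire g w) ∧
      1 ≤ D (Sum.inl v) + (G.subdiv k).fire g (Sum.inl v)) →
    ∀ p : V ⊕ E × Fin (k - 1), ∃ g : V ⊕ E × Fin (k - 1) → ℤ,
      (∀ w, 0 ≤ D w + (G.subdiv k).fire g w) ∧ 1 ≤ D p + (G.subdiv k).fire g p

/-- Job RK: rank at least `r` is inherited by the subdivision. -/
def S_RK : Prop := ∀ (V E : Type) [Fintype V] [Fintype E] [DecidableEq V] [DecidableEq E] (G : MGraph V E) (k : ℕ),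
  G.Connected → 1 ≤ k → ∀ (r : ℕ) (D : V → ℤ), G.RankGe r D → (G.subdiv k).RankGe r (ext E k D)

end Q122.QB
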