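import Pool.Agent.Q122.QB.Exit

set_option autoImplicit false

/-!
# The structure theorem: (R) and (G) force a chain of complete blocks
-/

namespace Q122.QB

set_option linter.unusedSectionVars false

variable {V : Type} [DecidableEq V] {a : V → V → ℤ} {W : Finset V} {y : V} {c : ℤ}

/-- all the hypotheses -/
structure Hyp (a : V → V → ℤ) (W : Finset V) (y : V) (c : ℤ) : Prop where
  ha : WG a
  hc : 1 ≤ c
  conn : Conn a W
  yW : y ∈ W
  rr : RR a W y c
  gg : GG a W y c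

open Classical in
/-- the least set separated by `b` -/
noncomputable def CC (a : V → V → ℤ) (W : Finset V) (y b : V) : Finset V :=
  W.filter (fun x => ∀ U, Sep a W y U b → x ∈ U)

lemma mem_CC {b x : V} : x ∈ CC a W y b ↔ x ∈ W ∧ ∀ U, Sep a W y U b → x ∈ U := by
  classical
  unfold CC
  rw [Finset.mem_filter]

lemma CC_sub {b : V} {U : Finset V} (h : Sep a W y U b) : CC a W y b ⊆ U :=
  fun _ hx => (mem_CC.mp hx).2 U h

lemma CC_sep {b : V} {U : Finset V} (h : Sep a W y U b) : Sep a W y (CC a W y b) b where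
  sub := fun _ hx => (mem_CC.mp hx).1
  root := mem_CC.mpr ⟨h.sub h.root, fun _ h' => h'.root⟩
  bW := h.bW
  bU := fun hb => h.bU (CC_sub h hb)
  exit := by
    intro x hx z hz hzC hzb
    rw [mem_CC] at hx hzC
    push Not at hzC
    obtain ⟨U', h', hzU'⟩ := hzC hz
    exact h'.exit x (hx.2 U' h') z hz hzU' hzb

/-- a neighbour of the root different from the exit lies inside -/
lemma nb_mem {b x : V} {U : Finset V} (h : Sep a W y U b) (hx : x ∈ W) (h0 : 0 < a y x)
    (hxb : x ≠ b) : x ∈ U := by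
  by_contra hxU
  have := h.exit y h.root x hx hxU hxb
  omega

/-- the data at a neighbour of the root -/
lemma nb_data (h : Hyp a W y c) {b : V} (hb : b ∈ W) (h0 : 0 < a y b) :
    Sep a W y (CC a W y b) b ∧ a y b = c + 1 ∧ ∀ x ∈ CC a W y b, x ≠ y → a x b ≤ 1 := by
  have hby : b ≠ y := by
    rintro rfl
    rw [h.ha.diag] at h0
    omega
  obtain ⟨U, b', hS, hbU, h1, h2, -⟩ := exit_data h.ha h.hc h.conn h.yW h.rr h.gg hb hby
  have hbb : b = b' := by
    by_contra hne
    exact hbU (nb_mem hS hb h0 hne)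
  subst hbb
  exact ⟨CC_sep hS, h1, fun x hx hxy => h2 x (CC_sub hS hx) hxy⟩

/-- two neighbours of the root are joined by one edge -/
lemma nb_adj (h : Hyp a W y c) {b₁ b₂ : V} (hb₁ : b₁ ∈ W) (h₁ : 0 < a y b₁) (hb₂ : b₂ ∈ W)
    (h₂ : 0 < a y b₂) (hne : b₁ ≠ b₂) : a b₁ b₂ = 1 := by
  have hy1 : b₁ ≠ y := by
    rintro rfl
    rw [h.ha.diag] at h₁
    omega
  have hy2 : b₂ ≠ y := by
    rintro rfl
    rw [h.ha.diag] at h₂
    omega
  obtain ⟨hS₁, e₁, u₁⟩ := nb_data h hb₁ h₁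
  obtain ⟨hS₂, e₂, u₂⟩ := nb_data h hb₂ h₂
  have hm : b₁ ∈ CC a W y b₂ := nb_mem hS₂ hb₁ h₁ hne
  have hm' : b₂ ∈ CC a W y b₁ := nb_mem hS₁ hb₂ h₂ (Ne.symm hne)
  have hle := u₂ b₁ hm hy1
  have hge := h.ha.nonneg b₁ b₂
  by_contra hcon
  have h0 : a b₁ b₂ = 0 := by omega
  have h0' : a b₂ b₁ = 0 := by rw [h.ha.symm]; exact h0
  have hc := h.hc
  have hp0 : 0 ≤ c + 1 := by omega
  -- firing a branch
  have key : ∀ b b' : V, b ∈ W → 0 < a y b → a b' b = 0 → b' ∈ CC a W y b → b ≠ b' → b ≠ y →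
      (∀ x ∈ W, 0 ≤ dv y (c + 1) {b₁, b₂} x - Lap a W (ic (CC a W y b)) x) ∨
        ({b, b'} : Finset V) ≠ {b₁, b₂} := by
    intro b b' hb hyb hb'b hb' hbb' hby
    by_cases hset : ({b, b'} : Finset V) = {b₁, b₂}
    · left
      obtain ⟨hS, e, u⟩ := nb_data h hb hyb
      rw [← hset]
      intro x hx
      by_cases hxC : x ∈ CC a W y b
      · rw [Lap_ic_in a W _ hxC]
        have hsum : ∑ z ∈ W \ CC a W y b, a x z = a x b := by
          refine Finset.sum_eq_single_of_mem b (Finset.mem_sdiff.mpr ⟨hb, hS.bU⟩) ?_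
          intro z hz hzb
          rw [Finset.mem_sdiff] at hz
          exact hS.exit x hxC z hz.1 hz.2 hzb
        rw [hsum]
        by_cases hxy : x = y
        · subst hxy
          rw [dv_self, e]
          omega
        · by_cases hxb' : x = b'
          · subst hxb'
            rw [hb'b]
            have := dv_nonneg (y := y) hp0 {b, x} x
            omega
          · have hxb : x ≠ b := fun h' => hS.bU (h' ▸ hxC)
            rw [dv_not _ hxy (by simp [hxb, hxb'])]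
            have := u x hxC hxy
            omega
      · rw [Lap_ic_out a W _ hxC]
        have h1 : 0 ≤ ∑ z ∈ W ∩ CC a W y b, a x z := Finset.sum_nonneg fun z _ => h.ha.nonneg x z
        have := dv_nonneg (y := y) hp0 {b, b'} x
        omega
    · right
      exact hset
  have reach : ∀ b : V, b ∈ W → 0 < a y b → b ≠ y →
      1 ≤ dv y (c + 1) {b₁, b₂} b - Lap a W (ic (CC a W y b)) b := by
    intro b hb hyb hby
    obtain ⟨hS, e, u⟩ := nb_data h hb hyb
    rw [Lap_ic_out a W _ hS.bU]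
    have h1 : a b y ≤ ∑ z ∈ W ∩ CC a W y b, a b z :=
      Finset.single_le_sum (f := fun t => a b t) (fun t _ => h.ha.nonneg b t)
        (Finset.mem_inter.mpr ⟨h.yW, hS.root⟩)
    rw [h.ha.symm b y] at h1
    have := dv_nonneg (y := y) hp0 {b₁, b₂} b
    omega
  have h1 := h.gg (dv y (c + 1) {b₁, b₂}) (fun x _ => dv_nonneg hp0 _ x) (by
    rw [dv_self]
    omega) (by
    intro x hx
    by_cases hx1 : x = b₁
    · subst hx1
      rcases key x b₂ hb₁ h₁ h0' hm' hne hy1 with h' | h'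
      · exact ⟨_, h', reach x hb₁ h₁ hy1⟩
      · exact absurd rfl h'
    · by_cases hx2 : x = b₂
      · subst hx2
        rcases key x b₁ hb₂ h₂ h0 hm (Ne.symm hne) hy2 with h' | h'
        · exact ⟨_, h', reach x hb₂ h₂ hy2⟩
        · exact absurd (Finset.pair_comm x b₁) h'
      · refine ⟨fun _ => 0, fun z hz => ?_, ?_⟩
        · rw [Lap_zero]
          have := dv_nonneg (y := y) hp0 {b₁, b₂} z
          omega
        · rw [Lap_zero]
          by_cases hxy : x = y
          · subst hxy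
            rw [dv_self]
            omega
          · rw [dv_not _ hxy (by simp [hx1, hx2])]
            omega)
  rw [sum_dv W h.yW _ _ (by
    intro z hz
    rw [Finset.mem_insert, Finset.mem_singleton] at hz
    rcases hz with rfl | rfl
    · exact hb₁
    · exact hb₂) (by simp [Ne.symm hy1, Ne.symm hy2]), Finset.card_pair hne] at h1
  push_cast at h1
  omega

/-- the parts behind two neighbours are disjoint -/
lemma beh_disj (h : Hyp a W y c) {b₁ b₂ : V} (hb₁ : b₁ ∈ W) (h₁ : 0 < a y b₁) (hb₂ : b₂ ∈ W)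
    (h₂ : 0 < a y b₂) (hne : b₁ ≠ b₂) {w : V} (hw : w ∈ W) (hw1 : w ∉ CC a W y b₁) (_hw1 : w ≠ b₁) :
    w ∈ CC a W y b₂ := by
  by_contra hw2
  obtain ⟨hS₁, -, -⟩ := nb_data h hb₁ h₁
  obtain ⟨hS₂, -, -⟩ := nb_data h hb₂ h₂
  have hm : b₁ ∈ CC a W y b₂ := nb_mem hS₂ hb₁ h₁ hne
  have hm' : b₂ ∈ CC a W y b₁ := nb_mem hS₁ hb₂ h₂ (Ne.symm hne)
  set S : Finset V := W.filter (fun x => x ∉ CC a W y b₁ ∧ x ∉ CC a W y b₂) with hSdef
  have hwS : w ∈ S := Finset.mem_filter.mpr ⟨hw, hw1, hw2⟩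
  have hyS : y ∉ S := fun hy => (Finset.mem_filter.mp hy).2.1 hS₁.root
  obtain ⟨x, hx, z, hz, hzS, hpos⟩ := h.conn S (Finset.filter_subset _ _) ⟨w, hwS⟩
    (fun he => hyS (he ▸ h.yW))
  rw [hSdef, Finset.mem_filter] at hx
  have hzz : z ∈ CC a W y b₁ ∨ z ∈ CC a W y b₂ := by
    by_contra hcon
    push Not at hcon
    exact hzS (Finset.mem_filter.mpr ⟨hz, hcon⟩)
  rw [h.ha.symm] at hpos
  rcases hzz with hzz | hzz
  · have := hS₁.exit z hzz x hx.1 hx.2.1 (fun he => hx.2.2 (he ▸ hm))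
    omega
  · have := hS₂.exit z hzz x hx.1 hx.2.2 (fun he => hx.2.1 (he ▸ hm'))
    omega

/-- the exit of a vertex which is not a neighbour of the root -/
lemma far_data (h : Hyp a W y c) {w : V} (hw : w ∈ W) (hwy : w ≠ y) (h0 : ¬ 0 < a y w) :
    ∃ b ∈ W, 0 < a y b ∧ w ∉ CC a W y b ∧ w ≠ b ∧ ∃ (f : V → ℤ) (K : ℤ),
      (∀ x ∈ CC a W y b, f x = K) ∧ f b = K - 1 ∧
      ∀ x ∈ W, 0 ≤ (if x = y then 1 + c else 1) - (if x = w then 2 else 0) - Lap a W f x := by
  obtain ⟨U, b, hS, hwU, h1, h2, f, K, hf1, hf2, hf3⟩ :=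
    exit_data h.ha h.hc h.conn h.yW h.rr h.gg hw hwy
  have hc := h.hc
  refine ⟨b, hS.bW, by omega, fun hw' => hwU (CC_sub hS hw'), ?_, f, K,
    fun x hx => hf1 x (CC_sub hS hx), hf2, hf3⟩
  rintro rfl
  omega

/-- the exit of a vertex behind `b` is `b` -/
lemma beh_data (h : Hyp a W y c) {b : V} (hb : b ∈ W) (h₀ : 0 < a y b) {w : V} (hw : w ∈ W)
    (hwC : w ∉ CC a W y b) (hwb : w ≠ b) : ∃ (f : V → ℤ) (K : ℤ),
      (∀ x ∈ CC a W y b, f x = K) ∧ f b = K - 1 ∧
      ∀ x ∈ W, 0 ≤ (if x = y then 1 + c else 1) - (if x = w then 2 else 0) - Lap a W f x := by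
  obtain ⟨hS, -, -⟩ := nb_data h hb h₀
  have hwy : w ≠ y := fun he => hwC (he ▸ hS.root)
  have h0 : ¬ 0 < a y w := by
    have := hS.exit y hS.root w hw hwC hwb
    omega
  obtain ⟨b', hb', h₀', hwC', hwb', hf⟩ := far_data h hw hwy h0
  have hbb : b = b' := by
    by_contra hne
    exact hwC' (beh_disj h hb h₀ hb' h₀' hne hw hwC hwb)
  subst hbb
  exact hf

/-- the neighbours of the root -/
def TT (a : V → V → ℤ) (W : Finset V) (y : V) : Finset V := W.filter (fun x => 0 < a y x)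

lemma mem_TT {x : V} : x ∈ TT a W y ↔ x ∈ W ∧ 0 < a y x := Finset.mem_filter

lemma y_TT (ha : WG a) : y ∉ TT a W y := by
  intro hy
  have := (mem_TT.mp hy).2
  rw [ha.diag] at this
  omega

/-- a vertex of the branch which is not the root nor a neighbour of the root is not adjacent to
the exit -/
lemma far_adj (h : Hyp a W y c) {b : V} (hb : b ∈ TT a W y) {x : V} (hx : x ∈ CC a W y b)
    (hxy : x ≠ y) (hxT : x ∉ TT a W y) : a x b = 0 := by
  rw [mem_TT] at hb
  have hxW := (mem_CC.mp hx).1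
  have h0 : ¬ 0 < a y x := fun h' => hxT (mem_TT.mpr ⟨hxW, h'⟩)
  obtain ⟨b', hb', h₀', hxC', hxb', -⟩ := far_data h hxW hxy h0
  have hbb : b ≠ b' := by
    rintro rfl
    exact hxC' hx
  obtain ⟨hS', -, -⟩ := nb_data h hb' h₀'
  rw [h.ha.symm]
  exact hS'.exit b (nb_mem hS' hb.1 hb.2 hbb) x hxW hxC' hxb'

/-- the number of edges from the branch to the exit -/
lemma sum_branch (h : Hyp a W y c) {b : V} (hb : b ∈ TT a W y) :
    ∑ z ∈ CC a W y b, a b z = c + (TT a W y).card := by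
  have hb' := mem_TT.mp hb
  obtain ⟨hS, e, u⟩ := nb_data h hb'.1 hb'.2
  have hyb : y ∉ (TT a W y).erase b := fun h' => y_TT h.ha (Finset.mem_of_mem_erase h')
  have hsub : insert y ((TT a W y).erase b) ⊆ CC a W y b := by
    intro z hz
    rw [Finset.mem_insert, Finset.mem_erase, mem_TT] at hz
    rcases hz with rfl | hz
    · exact hS.root
    · exact nb_mem hS hz.2.1 hz.2.2 hz.1
  rw [← Finset.sum_subset hsub, Finset.sum_insert hyb]
  · have h1 : ∑ z ∈ (TT a W y).erase b, a b z = ∑ z ∈ (TT a W y).erase b, (1 : ℤ) := by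
      refine Finset.sum_congr rfl fun z hz => ?_
      rw [Finset.mem_erase, mem_TT] at hz
      exact nb_adj h hb'.1 hb'.2 hz.2.1 hz.2.2 (Ne.symm hz.1)
    rw [h1, h.ha.symm b y, e, Finset.sum_const, Finset.card_erase_of_mem hb]
    have h2 : 1 ≤ (TT a W y).card := Finset.card_pos.mpr ⟨b, hb⟩
    simp only [nsmul_eq_mul, mul_one]
    push_cast [Nat.cast_sub h2]
    ring
  · intro z hz hz'
    rw [Finset.mem_insert, Finset.mem_erase, not_or] at hz'
    have hzb : z ≠ b := fun he => hS.bU (he ▸ hz)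
    rw [h.ha.symm]
    exact far_adj h hb hz hz'.1 (fun hT => hz'.2 ⟨hzb, hT⟩)

/-- Laplacian at a vertex behind `b` -/
lemma Lap_beh (ha : WG a) {b : V} {C : Finset V} (hS : Sep a W y C b) (f : V → ℤ) {x : V}
    (hx : x ∈ W) (hxC : x ∉ C) (hxb : x ≠ b) : Lap a W f x = Lap a (W \ C) f x := by
  unfold Lap
  rw [← Finset.sum_sdiff hS.sub]
  have h1 : ∑ z ∈ C, a x z * (f x - f z) = 0 := by
    refine Finset.sum_eq_zero fun z hz => ?_
    rw [ha.symm x z, hS.exit z hz x hx hxC hxb, zero_mul]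
  rw [h1, add_zero]

/-- Laplacian at the exit -/
lemma Lap_exit {b : V} {C : Finset V} (hC : C ⊆ W) (f : V → ℤ) {K : ℤ}
    (hf : ∀ x ∈ C, f x = K) : Lap a W f b = Lap a (W \ C) f b + (∑ z ∈ C, a b z) * (f b - K) := by
  unfold Lap
  rw [← Finset.sum_sdiff hC, Finset.sum_mul]
  congr 1
  refine Finset.sum_congr rfl fun z hz => ?_
  rw [hf z hz]

/-- (R) passes to the part behind `b` -/
lemma rr_step (h : Hyp a W y c) {b : V} (hb : b ∈ TT a W y) :
    RR a (W \ CC a W y b) b (c + (TT a W y).card) := by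
  have hb' := mem_TT.mp hb
  obtain ⟨hS, e, u⟩ := nb_data h hb'.1 hb'.2
  intro w hw hwb
  rw [Finset.mem_sdiff] at hw
  obtain ⟨f, K, hf1, hf2, hf3⟩ := beh_data h hb'.1 hb'.2 hw.1 hw.2 hwb
  refine ⟨f, fun x hx => ?_⟩
  rw [Finset.mem_sdiff] at hx
  have hxy : x ≠ y := fun he => hx.2 (he ▸ hS.root)
  have h1 := hf3 x hx.1
  rw [if_neg hxy] at h1
  by_cases hxb : x = b
  · subst hxb
    rw [if_pos rfl, if_neg (Ne.symm hwb)]
    rw [if_neg (Ne.symm hwb), Lap_exit hS.sub f hf1, sum_branch h hb, hf2] at h1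
    linarith
  · rw [if_neg hxb, ← Lap_beh h.ha hS f hx.1 hx.2 hxb]
    exact h1

/-- (G) passes to the part behind `b` -/
lemma gg_step (h : Hyp a W y c) {b : V} (hb : b ∈ TT a W y) :
    GG a (W \ CC a W y b) b (c + (TT a W y).card) := by
  have hb' := mem_TT.mp hb
  obtain ⟨hS, e, u⟩ := nb_data h hb'.1 hb'.2
  set C := CC a W y b with hC
  set t : ℤ := c + (TT a W y).card with ht
  have hsb : ∑ z ∈ C, a b z = t := sum_branch h hb
  have hc := h.hc
  intro D' hD0 hDb hcov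
  have hWC : W \ (W \ C) = C := by
    rw [Finset.sdiff_sdiff_eq_self hS.sub]
  have hWC' : W ∩ (W \ C) = W \ C := Finset.inter_eq_right.mpr Finset.sdiff_subset
  have hbW' : b ∈ W \ C := Finset.mem_sdiff.mpr ⟨hb'.1, hS.bU⟩
  set D : V → ℤ := fun x => if x ∈ C then (if x = y then c + 1 else 1) else
    if x = b then D' b - t else D' x with hD
  have hDC : ∀ x ∈ C, D x = if x = y then c + 1 else 1 := fun x hx => by simp only [hD, if_pos hx]
  have hDb' : D b = D' b - t := by simp only [hD, if_neg hS.bU, if_true]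
  have hDo : ∀ x, x ∉ C → x ≠ b → D x = D' x := fun x hx hxb => by
    simp only [hD, if_neg hx, if_neg hxb]
  have hDnn : ∀ x ∈ W, 0 ≤ D x := by
    intro x hx
    by_cases hxC : x ∈ C
    · rw [hDC x hxC]
      split_ifs <;> omega
    · by_cases hxb : x = b
      · subst hxb
        rw [hDb']
        omega
      · rw [hDo x hxC hxb]
        exact hD0 x (Finset.mem_sdiff.mpr ⟨hx, hxC⟩)
  have h1 := h.gg D hDnn (by rw [hDC y hS.root, if_pos rfl]; omega) (by
    intro x hx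
    by_cases hxC : x ∈ C
    · refine ⟨fun _ => 0, fun z hz => ?_, ?_⟩
      · rw [Lap_zero]
        have := hDnn z hz
        omega
      · rw [Lap_zero, hDC x hxC]
        split_ifs <;> omega
    · obtain ⟨f', hf1, hf2⟩ := hcov x (Finset.mem_sdiff.mpr ⟨hx, hxC⟩)
      set f : V → ℤ := fun z => if z ∈ C then f' b else f' z with hf
      have hfC : ∀ z ∈ C, f z = f' b := fun z hz => by simp only [hf, if_pos hz]
      have hfo : ∀ z, z ∉ C → f z = f' z := fun z hz => by simp only [hf, if_neg hz]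
      have hfLap : ∀ z, z ∉ C → Lap a (W \ C) f z = Lap a (W \ C) f' z := by
        intro z hz
        unfold Lap
        refine Finset.sum_congr rfl fun s hs => ?_
        rw [hfo z hz, hfo s (Finset.mem_sdiff.mp hs).2]
      -- values of the new divisor
      have hval : ∀ z ∈ W, z ∉ C → D z - Lap a W (fun s => f s - ic (W \ C) s) z =
          D' z - Lap a (W \ C) f' z := by
        intro z hz hzC
        rw [Lap_sub, Lap_ic_in a W _ (Finset.mem_sdiff.mpr ⟨hz, hzC⟩), hWC]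
        by_cases hzb : z = b
        · subst hzb
          rw [Lap_exit hS.sub f hfC, hfLap z hzC, hsb, hfo z hzC, hDb']
          ring
        · rw [Lap_beh h.ha hS f hz hzC hzb, hfLap z hzC, hDo z hzC hzb]
          have : ∑ s ∈ C, a z s = 0 := by
            refine Finset.sum_eq_zero fun s hs => ?_
            rw [h.ha.symm]
            exact hS.exit s hs z hz hzC hzb
          rw [this]
          ring
      refine ⟨fun s => f s - ic (W \ C) s, fun z hz => ?_, ?_⟩
      · by_cases hzC : z ∈ C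
        · have hzW' : z ∉ W \ C := fun h' => (Finset.mem_sdiff.mp h').2 hzC
          rw [Lap_sub, Lap_ic_out a W _ hzW', hWC']
          have h2 : Lap a W f z = 0 := by
            unfold Lap
            refine Finset.sum_eq_zero fun s hs => ?_
            by_cases hsC : s ∈ C
            · rw [hfC z hzC, hfC s hsC]
              ring
            · by_cases hsb : s = b
              · subst hsb
                rw [hfC z hzC, hfo s hsC]
                ring
              · rw [hS.exit z hzC s hs hsC hsb, zero_mul]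
          have h3 : ∑ s ∈ W \ C, a z s = a z b := by
            refine Finset.sum_eq_single_of_mem b hbW' ?_
            intro s hs hsb
            rw [Finset.mem_sdiff] at hs
            exact hS.exit z hzC s hs.1 hs.2 hsb
          rw [h2, h3, hDC z hzC]
          by_cases hzy : z = y
          · subst hzy
            rw [if_pos rfl, e]
            omega
          · rw [if_neg hzy]
            have := u z hzC hzy
            omega
        · rw [hval z hz hzC]
          exact hf1 z (Finset.mem_sdiff.mpr ⟨hz, hzC⟩)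
      · rw [hval x hx hxC]
        exact hf2)
  -- the sum
  rw [← Finset.sum_sdiff hS.sub] at h1
  have h2 : ∑ x ∈ C, D x = c + C.card := by
    rw [← Finset.add_sum_erase C _ hS.root, hDC y hS.root, if_pos rfl]
    have h3 : ∑ x ∈ C.erase y, D x = ∑ x ∈ C.erase y, (1 : ℤ) := by
      refine Finset.sum_congr rfl fun x hx => ?_
      rw [Finset.mem_erase] at hx
      rw [hDC x hx.2, if_neg hx.1]
    rw [h3, Finset.sum_const, Finset.card_erase_of_mem hS.root]
    have h4 : 1 ≤ C.card := Finset.card_pos.mpr ⟨y, hS.root⟩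
    simp only [nsmul_eq_mul, mul_one]
    push_cast [Nat.cast_sub h4]
    ring
  have h3 : ∑ x ∈ W \ C, D x = (∑ x ∈ W \ C, D' x) - t := by
    rw [← Finset.add_sum_erase _ _ hbW', ← Finset.add_sum_erase _ D' hbW', hDb']
    have h4 : ∑ x ∈ (W \ C).erase b, D x = ∑ x ∈ (W \ C).erase b, D' x := by
      refine Finset.sum_congr rfl fun x hx => ?_
      rw [Finset.mem_erase, Finset.mem_sdiff] at hx
      exact hDo x hx.2.2 hx.1
    rw [h4]
    ring
  have h4 : ((W \ C).card : ℤ) = W.card - C.card := by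
    rw [Finset.card_sdiff_of_subset hS.sub]
    have := Finset.card_le_card hS.sub
    push_cast [Nat.cast_sub this]
    ring
  rw [h2, h3] at h1
  rw [h4]
  linarith

/-- connectedness passes to the part behind `b` -/
lemma conn_step (h : Hyp a W y c) {b : V} {C : Finset V} (hS : Sep a W y C b) : Conn a (W \ C) := by
  intro S hSW hne hneq
  have hnc : ∀ x ∈ W, x ∉ C → x ≠ b → ∀ z ∈ C, a x z = 0 := by
    intro x hx hxC hxb z hz
    rw [h.ha.symm]
    exact hS.exit z hz x hx hxC hxb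
  by_cases hbS : b ∈ S
  · -- use the complement
    have h1 : ((W \ C) \ S).Nonempty := by
      rw [Finset.nonempty_iff_ne_empty]
      intro he
      rw [Finset.sdiff_eq_empty_iff_subset] at he
      exact hneq (Finset.Subset.antisymm hSW he)
    obtain ⟨x, hx, z, hz, hzS, hpos⟩ := h.conn ((W \ C) \ S)
      (Finset.sdiff_subset.trans Finset.sdiff_subset) h1 (fun he => by
        have : b ∈ (W \ C) \ S := by
          rw [he]
          exact hS.bW
        exact (Finset.mem_sdiff.mp this).2 hbS)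
    rw [Finset.mem_sdiff, Finset.mem_sdiff] at hx
    have hxb : x ≠ b := fun he => hx.2 (he ▸ hbS)
    have hzC : z ∉ C := fun hzC => by
      have := hnc x hx.1.1 hx.1.2 hxb z hzC
      omega
    refine ⟨z, ?_, x, Finset.mem_sdiff.mpr hx.1, hx.2, by rw [h.ha.symm]; exact hpos⟩
    by_contra hzS'
    exact hzS (Finset.mem_sdiff.mpr ⟨Finset.mem_sdiff.mpr ⟨hz, hzC⟩, hzS'⟩)
  · obtain ⟨x, hx, z, hz, hzS, hpos⟩ := h.conn S (hSW.trans Finset.sdiff_subset) hne
      (fun he => hbS (he ▸ hS.bW))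
    have hx' := Finset.mem_sdiff.mp (hSW hx)
    have hxb : x ≠ b := fun he => hbS (he ▸ hx)
    have hzC : z ∉ C := fun hzC => by
      have := hnc x hx'.1 hx'.2 hxb z hzC
      omega
    exact ⟨x, hx, z, Finset.mem_sdiff.mpr ⟨hz, hzC⟩, hzS, hpos⟩

/-- the hypotheses pass to the part behind `b` -/
lemma hyp_step (h : Hyp a W y c) {b : V} (hb : b ∈ TT a W y) :
    Hyp a (W \ CC a W y b) b (c + (TT a W y).card) := by
  have hb' := mem_TT.mp hb
  obtain ⟨hS, e, u⟩ := nb_data h hb'.1 hb'.2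
  have hc := h.hc
  exact ⟨h.ha, by omega, conn_step h hS, Finset.mem_sdiff.mpr ⟨hb'.1, hS.bU⟩, rr_step h hb,
    gg_step h hb⟩

/-- firing the branch and then the branch with the next branch -/
lemma double_fire (h : Hyp a W y c) {b : V} (hb : b ∈ TT a W y) {U : Finset V} {x₁ : V}
    (hS' : Sep a (W \ CC a W y b) b U x₁) (e' : a b x₁ = c + (TT a W y).card + 1)
    (u' : ∀ x ∈ U, x ≠ b → a x x₁ ≤ 1) (P : Finset V) (hPb : b ∉ P) (hPU : ∀ x ∈ P, x ∉ U)
    (hPC : ∀ x ∈ P, x ∈ CC a W y b → a x b = 0) (hPy : y ∉ P) :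
    (∀ z ∈ W, 0 ≤ dv y (c + 1) P z -
      Lap a W (fun s => ic (CC a W y b) s + ic (CC a W y b ∪ U) s) z) ∧
    1 ≤ dv y (c + 1) P x₁ - Lap a W (fun s => ic (CC a W y b) s + ic (CC a W y b ∪ U) s) x₁ := by
  have hb' := mem_TT.mp hb
  obtain ⟨hS, e, u⟩ := nb_data h hb'.1 hb'.2
  have hsb := sum_branch h hb
  set C := CC a W y b with hC
  set t : ℤ := c + (TT a W y).card with ht
  have hc := h.hc
  have hnn := h.ha.nonneg
  have hp0 : 0 ≤ c + 1 := by omega
  have hWC : W ∩ C = C := Finset.inter_eq_right.mpr hS.sub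
  have hx₁ := Finset.mem_sdiff.mp hS'.bW
  have hbU : b ∈ U := hS'.root
  have hUC : ∀ x ∈ U, x ∈ W ∧ x ∉ C := fun x hx => Finset.mem_sdiff.mp (hS'.sub hx)
  have hxCU : x₁ ∉ C ∪ U := by
    rw [Finset.mem_union, not_or]
    exact ⟨hx₁.2, hS'.bU⟩
  have hby : b ≠ y := fun he => hS.bU (he ▸ hS.root)
  -- out of the union
  have hout : ∀ z ∈ U, ∑ s ∈ W \ (C ∪ U), a z s = a z x₁ := by
    intro z hz
    refine Finset.sum_eq_single_of_mem x₁ (Finset.mem_sdiff.mpr ⟨hx₁.1, hxCU⟩) ?_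
    intro s hs hsx
    rw [Finset.mem_sdiff, Finset.mem_union, not_or] at hs
    exact hS'.exit z hz s (Finset.mem_sdiff.mpr ⟨hs.1, hs.2.1⟩) hs.2.2 hsx
  constructor
  · intro z hz
    rw [Lap_add]
    by_cases hzC : z ∈ C
    · rw [Lap_ic_in a W _ hzC, Lap_ic_in a W _ (Finset.mem_union_left U hzC)]
      have h1 : ∑ s ∈ W \ C, a z s = a z b := by
        refine Finset.sum_eq_single_of_mem b (Finset.mem_sdiff.mpr ⟨hb'.1, hS.bU⟩) ?_
        intro s hs hsb
        rw [Finset.mem_sdiff] at hs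
        exact hS.exit z hzC s hs.1 hs.2 hsb
      have h2 : ∑ s ∈ W \ (C ∪ U), a z s = 0 := by
        refine Finset.sum_eq_zero fun s hs => ?_
        rw [Finset.mem_sdiff, Finset.mem_union, not_or] at hs
        exact hS.exit z hzC s hs.1 hs.2.1 (fun he => hs.2.2 (he ▸ hbU))
      rw [h1, h2]
      by_cases hzy : z = y
      · subst hzy
        rw [dv_self, e]
        omega
      · by_cases hzP : z ∈ P
        · rw [hPC z hzP hzC]
          have := dv_nonneg (y := y) hp0 P z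
          omega
        · rw [dv_not _ hzy hzP]
          have := u z hzC hzy
          omega
    · have hzy : z ≠ y := fun he => hzC (he ▸ hS.root)
      rw [Lap_ic_out a W _ hzC, hWC]
      by_cases hzU : z ∈ U
      · rw [Lap_ic_in a W _ (Finset.mem_union_right C hzU), hout z hzU,
          dv_not _ hzy (fun hP => hPU z hP hzU)]
        by_cases hzb : z = b
        · subst hzb
          rw [hsb, e']
          omega
        · have h1 : 0 ≤ ∑ s ∈ C, a z s := Finset.sum_nonneg fun s _ => hnn z s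
          have := u' z hzU hzb
          omega
      · rw [Lap_ic_out a W _ (by rw [Finset.mem_union, not_or]; exact ⟨hzC, hzU⟩)]
        have h1 : 0 ≤ ∑ s ∈ C, a z s := Finset.sum_nonneg fun s _ => hnn z s
        have h2 : 0 ≤ ∑ s ∈ W ∩ (C ∪ U), a z s := Finset.sum_nonneg fun s _ => hnn z s
        have := dv_nonneg (y := y) hp0 P z
        omega
  · rw [Lap_add, Lap_ic_out a W _ hx₁.2, Lap_ic_out a W _ hxCU]
    have h1 : 0 ≤ ∑ s ∈ W ∩ C, a x₁ s := Finset.sum_nonneg fun s _ => hnn x₁ s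
    have h2 : a x₁ b ≤ ∑ s ∈ W ∩ (C ∪ U), a x₁ s :=
      Finset.single_le_sum (f := fun t => a x₁ t) (fun t _ => hnn x₁ t)
        (Finset.mem_inter.mpr ⟨hb'.1, Finset.mem_union_right C hbU⟩)
    rw [h.ha.symm x₁ b, e'] at h2
    have := dv_nonneg (y := y) hp0 P x₁
    omega

/-- at most one neighbour of the root has something behind it -/
lemma two_branch (h : Hyp a W y c) {b₁ b₂ : V} (hb₁ : b₁ ∈ TT a W y) (hb₂ : b₂ ∈ TT a W y)
    (hne : b₁ ≠ b₂) {w₁ w₂ : V} (hw₁ : w₁ ∈ W) (hw₁C : w₁ ∉ CC a W y b₁) (hw₁b : w₁ ≠ b₁)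
    (hw₂ : w₂ ∈ W) (hw₂C : w₂ ∉ CC a W y b₂) (hw₂b : w₂ ≠ b₂) : False := by
  have h₁ := hyp_step h hb₁
  have h₂ := hyp_step h hb₂
  obtain ⟨U₁, x₁, S₁, -, e₁, u₁, -⟩ := exit_data h₁.ha h₁.hc h₁.conn h₁.yW h₁.rr h₁.gg
    (Finset.mem_sdiff.mpr ⟨hw₁, hw₁C⟩) hw₁b
  obtain ⟨U₂, x₂, S₂, -, e₂, u₂, -⟩ := exit_data h₂.ha h₂.hc h₂.conn h₂.yW h₂.rr h₂.gg
    (Finset.mem_sdiff.mpr ⟨hw₂, hw₂C⟩) hw₂b
  have hb₁' := mem_TT.mp hb₁
  have hb₂' := mem_TT.mp hb₂
  obtain ⟨R₁, -, -⟩ := nb_data h hb₁'.1 hb₁'.2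
  obtain ⟨R₂, -, -⟩ := nb_data h hb₂'.1 hb₂'.2
  have hx₁ := Finset.mem_sdiff.mp S₁.bW
  have hx₂ := Finset.mem_sdiff.mp S₂.bW
  have hx₁b : x₁ ≠ b₁ := fun he => S₁.bU (he ▸ S₁.root)
  have hx₂b : x₂ ≠ b₂ := fun he => S₂.bU (he ▸ S₂.root)
  have m₁ : x₁ ∈ CC a W y b₂ := beh_disj h hb₁'.1 hb₁'.2 hb₂'.1 hb₂'.2 hne hx₁.1 hx₁.2 hx₁b
  have m₂ : x₂ ∈ CC a W y b₁ :=
    beh_disj h hb₂'.1 hb₂'.2 hb₁'.1 hb₁'.2 (Ne.symm hne) hx₂.1 hx₂.2 hx₂b
  have n₁ : a x₁ b₂ = 0 := by
    rw [h.ha.symm]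
    exact R₁.exit b₂ (nb_mem R₁ hb₂'.1 hb₂'.2 (Ne.symm hne)) x₁ hx₁.1 hx₁.2 hx₁b
  have n₂ : a x₂ b₁ = 0 := by
    rw [h.ha.symm]
    exact R₂.exit b₁ (nb_mem R₂ hb₁'.1 hb₁'.2 hne) x₂ hx₂.1 hx₂.2 hx₂b
  have hx12 : x₁ ≠ x₂ := fun he => hx₁.2 (he ▸ m₂)
  have hy₁ : x₁ ≠ y := fun he => hx₁.2 (he ▸ R₁.root)
  have hy₂ : x₂ ≠ y := fun he => hx₂.2 (he ▸ R₂.root)
  have hyP : y ∉ ({x₁, x₂} : Finset V) := by
    simp [Ne.symm hy₁, Ne.symm hy₂]
  have hc := h.hc
  have hp0 : 0 ≤ c + 1 := by omega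
  have d₁ := double_fire h hb₁ S₁ e₁ u₁ {x₁, x₂} (by
    rw [Finset.mem_insert, Finset.mem_singleton, not_or]
    exact ⟨Ne.symm hx₁b, fun he => R₁.bU (he ▸ m₂)⟩) (by
    intro x hx
    rw [Finset.mem_insert, Finset.mem_singleton] at hx
    rcases hx with rfl | rfl
    · exact S₁.bU
    · exact fun hU => (Finset.mem_sdiff.mp (S₁.sub hU)).2 m₂) (by
    intro x hx hxC
    rw [Finset.mem_insert, Finset.mem_singleton] at hx
    rcases hx with rfl | rfl
    · exact absurd hxC hx₁.2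
    · exact n₂) hyP
  have d₂ := double_fire h hb₂ S₂ e₂ u₂ {x₁, x₂} (by
    rw [Finset.mem_insert, Finset.mem_singleton, not_or]
    exact ⟨fun he => R₂.bU (he ▸ m₁), Ne.symm hx₂b⟩) (by
    intro x hx
    rw [Finset.mem_insert, Finset.mem_singleton] at hx
    rcases hx with rfl | rfl
    · exact fun hU => (Finset.mem_sdiff.mp (S₂.sub hU)).2 m₁
    · exact S₂.bU) (by
    intro x hx hxC
    rw [Finset.mem_insert, Finset.mem_singleton] at hx
    rcases hx with rfl | rfl
    · exact n₁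
    · exact absurd hxC hx₂.2) hyP
  have h1 := h.gg (dv y (c + 1) {x₁, x₂}) (fun x _ => dv_nonneg hp0 _ x) (by
    rw [dv_self]
    omega) (by
    intro x hx
    by_cases hx1 : x = x₁
    · subst hx1
      exact ⟨_, d₁.1, d₁.2⟩
    · by_cases hx2 : x = x₂
      · subst hx2
        exact ⟨_, d₂.1, d₂.2⟩
      · refine ⟨fun _ => 0, fun z hz => ?_, ?_⟩
        · rw [Lap_zero]
          have := dv_nonneg (y := y) hp0 {x₁, x₂} z
          omega
        · rw [Lap_zero]
          by_cases hxy : x = y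
          · subst hxy
            rw [dv_self]
            omega
          · rw [dv_not _ hxy (by simp [hx1, hx2])]
            omega)
  rw [sum_dv W h.yW _ _ (by
    intro z hz
    rw [Finset.mem_insert, Finset.mem_singleton] at hz
    rcases hz with rfl | rfl
    · exact hx₁.1
    · exact hx₂.1) hyP, Finset.card_pair hx12] at h1
  push_cast at h1
  omega

/-- **Structure theorem.** -/
theorem chain_of_hyp : ∀ (n : ℕ) (W : Finset V) (y : V) (c : ℤ), W.card = n → Hyp a W y c →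
    Chain a W y c := by
  intro n
  induction n using Nat.strong_induction_on with
  | _ n ih =>
    intro W y c hn h
    by_cases hWy : W = {y}
    · rw [hWy]
      exact Chain.base y c
    have hex : ∃ w ∈ W, w ≠ y := by
      by_contra hcon
      push Not at hcon
      exact hWy (Finset.eq_singleton_iff_unique_mem.mpr ⟨h.yW, hcon⟩)
    obtain ⟨w, hw, hwy⟩ := hex
    obtain ⟨U, b₀, hS₀, -, e₀, -⟩ := exit_data h.ha h.hc h.conn h.yW h.rr h.gg hw hwy
    have hc := h.hc
    have hb₀ : b₀ ∈ TT a W y := mem_TT.mpr ⟨hS₀.bW, by omega⟩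
    -- the branch that continues
    have hb : ∃ b ∈ TT a W y, ∀ b' ∈ TT a W y, b' ≠ b → ∀ w ∈ W, w ∉ CC a W y b' → w = b' := by
      by_cases hcase : ∃ b ∈ TT a W y, ∃ w ∈ W, w ∉ CC a W y b ∧ w ≠ b
      · obtain ⟨b, hb, w₁, hw₁, hw₁C, hw₁b⟩ := hcase
        refine ⟨b, hb, fun b' hb' hne w₂ hw₂ hw₂C => ?_⟩
        by_contra hw₂b
        exact two_branch h hb hb' (Ne.symm hne) hw₁ hw₁C hw₁b hw₂ hw₂C hw₂b
      · push Not at hcase
        exact ⟨b₀, hb₀, fun b' hb' _ w₂ hw₂ hw₂C => hcase b' hb' w₂ hw₂ hw₂C⟩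
    obtain ⟨b, hbT, hbu⟩ := hb
    have hb' := mem_TT.mp hbT
    obtain ⟨hS, e, u⟩ := nb_data h hb'.1 hb'.2
    have hC : CC a W y b = insert y ((TT a W y).erase b) := by
      ext x
      rw [Finset.mem_insert, Finset.mem_erase]
      constructor
      · intro hx
        by_contra hcon
        rw [not_or] at hcon
        have hxW := hS.sub hx
        have hxb : x ≠ b := fun he => hS.bU (he ▸ hx)
        have hxT : ¬ 0 < a y x := fun h0 => hcon.2 ⟨hxb, mem_TT.mpr ⟨hxW, h0⟩⟩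
        obtain ⟨b', hb'W, hb'0, hxC', hxb', -⟩ := far_data h hxW hcon.1 hxT
        have hbb : b' ≠ b := by
          rintro rfl
          exact hxC' hx
        exact hxb' (hbu b' (mem_TT.mpr ⟨hb'W, hb'0⟩) hbb x hxW hxC')
      · rintro (rfl | ⟨hxb, hxT⟩)
        · exact hS.root
        · exact nb_mem hS (mem_TT.mp hxT).1 (mem_TT.mp hxT).2 hxb
    have hstep := hyp_step h hbT
    have hlt : (W \ CC a W y b).card < n := by
      rw [← hn]
      refine Finset.card_lt_card ?_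
      rw [Finset.ssubset_iff_of_subset Finset.sdiff_subset]
      exact ⟨y, h.yW, fun hy => (Finset.mem_sdiff.mp hy).2 hS.root⟩
    have hch := ih _ hlt _ _ _ rfl hstep
    refine Chain.step W y c (TT a W y) b (W \ CC a W y b) (y_TT h.ha) hbT
      (Finset.mem_sdiff.mpr ⟨hb'.1, hS.bU⟩) ?_ ?_ ?_ ?_ ?_ hch
    · rw [← hC]
      exact Finset.disjoint_sdiff
    · rw [← hC, Finset.union_sdiff_of_subset hS.sub]
    · intro x hx
      exact (nb_data h (mem_TT.mp hx).1 (mem_TT.mp hx).2).2.1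
    · intro x hx z hz hne
      exact nb_adj h (mem_TT.mp hx).1 (mem_TT.mp hx).2 (mem_TT.mp hz).1 (mem_TT.mp hz).2 hne
    · intro x hx z hz hzb
      rw [← hC] at hx
      rw [Finset.mem_sdiff] at hz
      exact hS.exit x hx z hz.1 hz.2 hzb

end Q122.QB
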